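import Mathlib

/-!
A nonconstant polynomial curve, normalised in one coordinate, is not constant in the weighted
projective space.
-/

set_option autoImplicit false

namespace Pool.Agent.Helper568.GC

open Polynomial in
theorem root_mult {w : ℕ} {p : Polynomial ℂ} (hdeg : p.natDegree ≤ w) (hw : 1 ≤ w)
    (h0 : p.coeff 0 ≠ 0) (h1 : p.coeff 1 = 0) (hroot : ∀ ρ, p.IsRoot ρ → w ≤ p.rootMultiplicity ρ) :
    p.natDegree = 0 := by
  by_contra hne
  have hdne : p.degree ≠ 0 := by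
    intro h
    exact hne (natDegree_eq_of_degree_eq_some h)
  obtain ⟨ρ, hρ⟩ := IsAlgClosed.exists_root p hdne
  have hp0 : p ≠ 0 := by
    intro h
    rw [h] at h0
    exact h0 (coeff_zero 0)
  have hdvd : (X - C ρ) ^ w ∣ p := (le_rootMultiplicity_iff hp0).1 (hroot ρ hρ)
  obtain ⟨q, hq⟩ := hdvd
  have hq0 : q ≠ 0 := by
    rintro rfl
    rw [mul_zero] at hq
    exact hp0 hq
  have hnd : p.natDegree = w + q.natDegree := by
    rw [hq, natDegree_mul (pow_ne_zero _ (X_sub_C_ne_zero ρ)) hq0, natDegree_pow,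
      natDegree_X_sub_C, mul_one]
  have hqd : q.natDegree = 0 := by omega
  obtain ⟨c, hc⟩ : ∃ c, q = C c := ⟨_, eq_C_of_natDegree_eq_zero hqd⟩
  have hc0 : c ≠ 0 := by
    rintro rfl
    exact hq0 (by rw [hc, C_0])
  have hρ0 : ρ ≠ 0 := by
    rintro rfl
    apply h0
    rw [coeff_zero_eq_eval_zero]
    exact hρ
  have hder : (derivative p).coeff 0 = 0 := by
    rw [coeff_derivative, zero_add, h1, zero_mul]
  rw [coeff_zero_eq_eval_zero, hq, hc, derivative_mul, derivative_C, mul_zero, add_zero,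
    derivative_X_sub_C_pow, eval_mul, eval_mul, eval_C, eval_pow, eval_sub, eval_X, eval_C,
    eval_C, zero_sub] at hder
  have h2 : (w : ℂ) ≠ 0 := by
    have : w ≠ 0 := by omega
    exact_mod_cast this
  exact mul_ne_zero (mul_ne_zero h2 (pow_ne_zero _ (neg_ne_zero.2 hρ0))) hc0 hder

open Polynomial in
theorem rm_pow (p : Polynomial ℂ) (a : ℂ) (n : ℕ) :
    (p ^ n).rootMultiplicity a = n * p.rootMultiplicity a := by
  classical
  rw [← count_roots, roots_pow, Multiset.count_nsmul, count_roots]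

open Polynomial in
/-- **Nonconstancy.** -/
theorem nonconst_ratio {n : ℕ} {w : Fin n → ℕ} {x : Fin n → ℂ} {ξ : Fin n → Polynomial ℂ}
    (hdeg : ∀ i, (ξ i).natDegree ≤ w i) (hc0 : ∀ i, (ξ i).coeff 0 = x i) {i0 : Fin n}
    (hi0 : 1 ≤ w i0) (hx0 : x i0 ≠ 0) (hc1 : (ξ i0).coeff 1 = 0)
    (hnc : ∃ i, 1 ≤ (ξ i).natDegree) (hgcd : ∀ g : ℕ, (∀ i, x i ≠ 0 → g ∣ w i) → g = 1) :
    ∃ i, ξ i ^ w i0 * C (x i0 ^ w i) ≠ C (x i ^ w i0) * ξ i0 ^ w i := by
  classical
  by_contra hcon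
  push Not at hcon
  have hne : ∀ i, x i ≠ 0 → ξ i ≠ 0 := by
    intro i hi h
    rw [← hc0, h, coeff_zero] at hi
    exact hi rfl
  have hdiv : ∀ ρ, w i0 ∣ (ξ i0).rootMultiplicity ρ := by
    intro ρ
    set μ := (ξ i0).rootMultiplicity ρ with hμ
    have h1 : ∀ i ∈ Finset.univ.filter (fun i => x i ≠ 0), w i0 ∣ w i * μ := by
      intro i hi
      have hxi : x i ≠ 0 := (Finset.mem_filter.1 hi).2
      have h2 : (ξ i ^ w i0 * C (x i0 ^ w i)).rootMultiplicity ρ =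
          (C (x i ^ w i0) * ξ i0 ^ w i).rootMultiplicity ρ := by rw [hcon i]
      have hCa : (C (x i0 ^ w i) : Polynomial ℂ) ≠ 0 := C_ne_zero.2 (pow_ne_zero _ hx0)
      have hCb : (C (x i ^ w i0) : Polynomial ℂ) ≠ 0 := C_ne_zero.2 (pow_ne_zero _ hxi)
      rw [rootMultiplicity_mul (mul_ne_zero (pow_ne_zero _ (hne i hxi)) hCa),
        rootMultiplicity_mul (mul_ne_zero hCb (pow_ne_zero _ (hne i0 hx0))),
        rootMultiplicity_C, rootMultiplicity_C, add_zero, zero_add] at h2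
      rw [rm_pow, rm_pow] at h2
      exact ⟨(ξ i).rootMultiplicity ρ, h2.symm⟩
    have h2 := Finset.dvd_gcd h1
    rw [Finset.gcd_mul_right] at h2
    have h3 : (Finset.univ.filter (fun i => x i ≠ 0)).gcd w = 1 :=
      hgcd _ fun i hi => Finset.gcd_dvd (Finset.mem_filter.2 ⟨Finset.mem_univ _, hi⟩)
    rw [h3, one_mul, normalize_eq] at h2
    exact h2
  have hp : (ξ i0).natDegree = 0 := by
    refine root_mult (hdeg i0) hi0 (by rwa [hc0]) hc1 fun ρ hρ => ?_
    exact Nat.le_of_dvd ((rootMultiplicity_pos (hne i0 hx0)).2 hρ) (hdiv ρ)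
  obtain ⟨i, hi⟩ := hnc
  have h1 := congrArg natDegree (hcon i)
  have hCa : x i0 ^ w i ≠ 0 := pow_ne_zero _ hx0
  rw [natDegree_mul_C hCa, natDegree_pow] at h1
  have h2 : (C (x i ^ w i0) * ξ i0 ^ w i).natDegree ≤ 0 := by
    refine (natDegree_C_mul_le _ _).trans ?_
    rw [natDegree_pow, hp, mul_zero]
  rw [← h1] at h2
  have h3 : 1 * 1 ≤ w i0 * (ξ i).natDegree := Nat.mul_le_mul hi0 hi
  omega

end Pool.Agent.Helper568.GC
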