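import Pool.Agent.Helper568_GC.Param2

/-!
The coverings with arbitrary, possibly equal, branch points.
-/

set_option autoImplicit false

namespace Pool.Agent.Helper568.GC

open MvPolynomial

theorem wh_form (a : ℂ) : IsWeightedHomogeneous ![1, 1, 1]
    (X 0 + C a * X 1 : MvPolynomial (Fin 3) ℂ) 1 :=
  (wh_X (w := ![1, 1, 1]) 0).add (wh_C_mul (wh_X (w := ![1, 1, 1]) 1) a)

theorem par_two_deg (a b c : ℂ) :
    Par 2 2 (fun f g => (f + a * g) * (f + b * g) * (f + c * g) ^ 2) := by
  by_cases hab : a = b
  · subst hab
    refine par_all 2 2 _ ((X 0 + C a * X 1) * (X 0 + C c * X 1))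
      ((wh_form a).mul (wh_form c)) (fun f g => ?_) ?_
    · simp only [map_add, map_mul, eval_C, eval_X, (cons3 _ _ _).1, (cons3 _ _ _).2.1]
      ring
    · simp only [map_add, map_mul, eval_C, eval_X, (cons3 _ _ _).1, (cons3 _ _ _).2.1]
      ring
  · have hd : a - b ≠ 0 := sub_ne_zero.2 hab
    refine par_pair 2 2 2 hab _ (by norm_num)
      ((X 0 * X 1) * (C ((c - b) / (a - b)) * X 0 ^ 2 + C ((a - c) / (a - b)) * X 1 ^ 2))
      (((wh_X (w := ![1, 1, 1]) 0).mul (wh_X (w := ![1, 1, 1]) 1)).mul
        (wh_lin (wh_pow (w := ![1, 1, 1]) 0 2) (wh_pow (w := ![1, 1, 1]) 1 2) _ _))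
      (fun f g s t h1 h2 => ?_) ?_
    · simp only [map_add, map_mul, eval_C, eval_X, map_pow, (cons3 _ _ _).1, (cons3 _ _ _).2.1]
      rw [← h1, ← h2]
      have h3 : (c - b) / (a - b) * (f + a * g) + (a - c) / (a - b) * (f + b * g) = f + c * g := by
        field_simp
        ring
      rw [h3, mul_pow, mul_pow, ← h1, ← h2]
    · simp only [map_add, map_mul, eval_C, eval_X, map_pow, (cons3 _ _ _).1, (cons3 _ _ _).2.1]
      field_simp
      ring

/-- double coverings -/
theorem par_two (a b c d : ℂ) :
    Par 2 2 (fun f g => (f + a * g) * (f + b * g) * (f + c * g) * (f + d * g)) := by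
  by_cases h1 : c = d
  · subst h1
    have := par_two_deg a b c
    convert this using 3
    ring
  by_cases h2 : b = d
  · subst h2
    have := par_two_deg a c b
    convert this using 3
    ring
  by_cases h3 : b = c
  · subst h3
    have := par_two_deg a d b
    convert this using 3
    ring
  by_cases h4 : a = b
  · subst h4
    have := par_two_deg c d a
    convert this using 3
    ring
  by_cases h5 : a = c
  · subst h5
    have := par_two_deg b d a
    convert this using 3
    ring
  by_cases h6 : a = d
  · subst h6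
    have := par_two_deg b c a
    convert this using 3
    ring
  exact par_two_distinct h4 h5 h6 h3 h2 h1

theorem par_three_deg (a b : ℂ) : Par 3 1 (fun f g => (f + a * g) * (f + b * g) ^ 2) := by
  by_cases hab : a = b
  · subst hab
    refine par_all 3 1 _ (X 0 + C a * X 1) (wh_form a) (fun f g => ?_) ?_
    · simp only [map_add, map_mul, eval_C, eval_X, (cons3 _ _ _).1, (cons3 _ _ _).2.1]
      ring
    · simp only [map_add, map_mul, eval_C, eval_X, (cons3 _ _ _).1, (cons3 _ _ _).2.1]
      ring
  · refine par_pair 3 1 3 hab _ (by norm_num) (X 0 * X 1 ^ 2)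
      ((wh_X (w := ![1, 1, 1]) 0).mul (wh_pow (w := ![1, 1, 1]) 1 2))
      (fun f g s t h1 h2 => ?_) ?_
    · simp only [map_mul, eval_X, map_pow, (cons3 _ _ _).1, (cons3 _ _ _).2.1]
      rw [h1, h2]
      ring
    · simp only [map_mul, eval_X, map_pow, (cons3 _ _ _).1, (cons3 _ _ _).2.1]
      ring

/-- triple coverings -/
theorem par_three (a b c : ℂ) :
    Par 3 1 (fun f g => (f + a * g) * (f + b * g) * (f + c * g)) := by
  by_cases h1 : b = c
  · subst h1
    have := par_three_deg a b
    convert this using 3
    ring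
  by_cases h2 : a = b
  · subst h2
    have := par_three_deg c a
    convert this using 3
    ring
  by_cases h3 : a = c
  · subst h3
    have := par_three_deg b a
    convert this using 3
    ring
  exact par_three_distinct h2 h3 h1

theorem par_four_deg (a b : ℂ) : Par 4 1 (fun f g => (f + a * g) ^ 3 * (f + b * g)) := by
  by_cases hab : a = b
  · subst hab
    refine par_all 4 1 _ (X 0 + C a * X 1) (wh_form a) (fun f g => ?_) ?_
    · simp only [map_add, map_mul, eval_C, eval_X, (cons3 _ _ _).1, (cons3 _ _ _).2.1]
      ring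
    · simp only [map_add, map_mul, eval_C, eval_X, (cons3 _ _ _).1, (cons3 _ _ _).2.1]
      ring
  · refine par_pair 4 1 4 hab _ (by norm_num) (X 0 ^ 3 * X 1)
      ((wh_pow (w := ![1, 1, 1]) 0 3).mul (wh_X (w := ![1, 1, 1]) 1))
      (fun f g s t h1 h2 => ?_) ?_
    · simp only [map_mul, eval_X, map_pow, (cons3 _ _ _).1, (cons3 _ _ _).2.1]
      rw [h1, h2]
      ring
    · simp only [map_mul, eval_X, map_pow, (cons3 _ _ _).1, (cons3 _ _ _).2.1]
      ring

/-- coverings of degree four -/
theorem par_four (a b c : ℂ) :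
    Par 4 1 (fun f g => (f + a * g) ^ 2 * (f + b * g) * (f + c * g)) := by
  by_cases h1 : b = c
  · subst h1
    by_cases h2 : a = b
    · subst h2
      have := par_four_deg a a
      convert this using 3
      ring
    · refine par_pair 4 1 2 h2 _ (by norm_num) (X 0 * X 1)
        ((wh_X (w := ![1, 1, 1]) 0).mul (wh_X (w := ![1, 1, 1]) 1))
        (fun f g s t h3 h4 => ?_) ?_
      · simp only [map_mul, eval_X, (cons3 _ _ _).1, (cons3 _ _ _).2.1]
        rw [h3, h4]
        ring
      · simp only [map_mul, eval_X, (cons3 _ _ _).1, (cons3 _ _ _).2.1]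
        ring
  by_cases h2 : a = b
  · subst h2
    have := par_four_deg a c
    convert this using 3
    ring
  by_cases h3 : a = c
  · subst h3
    have := par_four_deg a b
    convert this using 3
    ring
  exact par_four_distinct h2 h3 h1

end Pool.Agent.Helper568.GC
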