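import Pool.Agent.Helper568_GC.Hom
import Pool.Agent.Helper568_GC.Param3
import Pool.Agent.Helper568_GC.NC

/-!
The curves in the cyclic covering.
-/

set_option autoImplicit false

namespace Pool.Agent.Helper568.GC

open MvPolynomial

theorem diff_eval {N : ℕ} {φ : ℂ → Fin N → ℂ} (hφ : Differentiable ℂ φ)
    (p : MvPolynomial (Fin N) ℂ) : Differentiable ℂ fun z => eval (φ z) p := by
  induction p using MvPolynomial.induction_on with
  | C a => simp only [eval_C]; exact differentiable_const _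
  | add p q hp hq => simp only [map_add]; exact hp.add hq
  | mul_X p i hp =>
    simp only [map_mul, eval_X]
    exact hp.mul (differentiable_pi.1 hφ i)

/-- substitution -/
theorem eval_subst {N : ℕ} (Φ : Fin N → MvPolynomial (Fin 3) ℂ) (H : MvPolynomial (Fin N) ℂ)
    (P : Fin 3 → ℂ) : eval P (aeval Φ H) = eval (fun i => eval P (Φ i)) H := by
  induction H using MvPolynomial.induction_on with
  | C a => simp
  | add p q hp hq => rw [map_add, map_add, map_add, hp, hq]
  | mul_X p i hp => rw [map_mul, map_mul, map_mul, hp, aeval_X, eval_X]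

theorem sc_subst {N M e : ℕ} {ν : Fin 3 → ℕ} {ω : Fin N → ℕ} {Φ : Fin N → MvPolynomial (Fin 3) ℂ}
    (hΦ : ∀ i, IsWeightedHomogeneous ν (Φ i) (M * ω i)) {H : MvPolynomial (Fin N) ℂ}
    (hH : IsWeightedHomogeneous ω H e) : Sc ν (aeval Φ H) (M * e) := by
  intro c P
  rw [eval_subst, eval_subst]
  have h1 : (fun i => eval (fun j => c ^ ν j * P j) (Φ i)) =
      fun i => (c ^ M) ^ ω i * eval P (Φ i) := by
    funext i
    rw [eval_act' (hΦ i) c P, pow_mul]
  rw [h1, eval_act' hH (c ^ M), pow_mul]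

section general

variable {N : ℕ} {ω : Fin N → ℕ} {X : Set (Fin N → ℂ)} {c : Kind}
  {Φ : Fin N → MvPolynomial (Fin 3) ℂ} {M : ℕ}

/-- **From a parametrisation to the three kinds of curves.** -/
theorem three_maps (hc : Valid c) (hΦ : ∀ i, IsWeightedHomogeneous (wts c) (Φ i) (M * ω i))
    (hmem : ∀ P ∈ Pts c, (fun i => eval P (Φ i)) ∈ X) {H₁ H₂ : MvPolynomial (Fin N) ℂ} {e : ℕ}
    (he : e ≠ 0) (h₁ : IsWeightedHomogeneous ω H₁ e) (h₂ : IsWeightedHomogeneous ω H₂ e)
    {P0 P1 : Fin 3 → ℂ} (hP0 : P0 ∈ Pts c) (hP1 : P1 ∈ Pts c)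
    (h20 : eval (fun i => eval P0 (Φ i)) H₂ ≠ 0) (h21 : eval (fun i => eval P1 (Φ i)) H₂ ≠ 0)
    (hne : eval (fun i => eval P1 (Φ i)) H₁ * eval (fun i => eval P0 (Φ i)) H₂ ≠
      eval (fun i => eval P0 (Φ i)) H₁ * eval (fun i => eval P1 (Φ i)) H₂) :
    CurveMap ω X c Φ ∧ EntireCurve ω X (fun z i => eval (par c z) (Φ i)) ∧
      EssentialMap ω X (fun z i => eval (par c (Complex.exp z⁻¹)) (Φ i)) := by
  -- a form of positive degree is zero where all coordinates of positive weight vanish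
  have hnz : ∀ {H : MvPolynomial (Fin N) ℂ}, IsWeightedHomogeneous ω H e → ∀ x : Fin N → ℂ,
      ¬ Nz ω x → eval x H = 0 := by
    intro H hH x hx
    have h3 := eval_act' hH 0 x
    have h4 : (fun i => (0 : ℂ) ^ ω i * x i) = x := by
      funext i
      by_cases hi : ω i = 0
      · rw [hi, pow_zero, one_mul]
      · have : x i = 0 := by
          by_contra h
          exact hx ⟨i, hi, h⟩
        rw [this, mul_zero]
    rw [h4, zero_pow he, zero_mul] at h3
    exact h3
  have hsame : ∀ {x y : Fin N → ℂ}, Same ω x y → eval y H₁ * eval x H₂ = eval x H₁ * eval y H₂ := by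
    rintro x y ⟨a, ha, rfl⟩
    rw [eval_act' h₁ a x, eval_act' h₂ a x]
    ring
  have hEdiff : Differentiable ℂ fun z => fun i => eval (par c z) (Φ i) :=
    differentiable_pi.2 fun i => diff_eval (par_diff c) (Φ i)
  -- vanishing along the parametrisation
  have hrel : ∀ {H : MvPolynomial (Fin N) ℂ} {E : ℕ}, IsWeightedHomogeneous ω H E →
      (∀ z, z ≠ 0 → eval (fun i => eval (par c z) (Φ i)) H = 0) → ∀ P ∈ Pts c,
      eval (fun i => eval P (Φ i)) H = 0 := by
    intro H E hH h P hP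
    rw [← eval_subst]
    refine par_dense (sc_subst hΦ hH) (fun s hs => ?_) hP
    rw [eval_subst]
    exact h s hs
  have hnz0 : Nz ω (fun i => eval P0 (Φ i)) := by
    by_contra h
    exact h20 (hnz h₂ _ h)
  have hnz1 : Nz ω (fun i => eval P1 (Φ i)) := by
    by_contra h
    exact h21 (hnz h₂ _ h)
  have hCmul : ∀ (a : ℂ) {H : MvPolynomial (Fin N) ℂ} {E : ℕ}, IsWeightedHomogeneous ω H E →
      IsWeightedHomogeneous ω (C a * H) E := by
    intro a H E hH
    have := (isWeightedHomogeneous_C ω a).mul hH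
    rwa [zero_add] at this
  obtain ⟨z1, hz1, hz1'⟩ : ∃ z, z ≠ 0 ∧ eval (fun i => eval (par c z) (Φ i)) H₂ ≠ 0 := by
    by_contra hcon
    push Not at hcon
    exact h20 (hrel h₂ hcon P0 hP0)
  refine ⟨⟨hc, ⟨M, hΦ⟩, hmem, P0, hP0, P1, hP1, hnz0, hnz1, fun h => hne (hsame h)⟩,
    ⟨hEdiff, fun z => hmem _ (par_mem hc z), ?_⟩, ?_, fun z _ => hmem _ (par_mem hc _), ?_,
    H₁, H₂, e, h₁, h₂, ?_, ?_⟩
  · by_contra hcon
    push Not at hcon
    set a := eval (fun i => eval (par c z1) (Φ i)) H₁ with ha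
    set b := eval (fun i => eval (par c z1) (Φ i)) H₂ with hb
    have hT : IsWeightedHomogeneous ω (C b * H₁ + C (-a) * H₂) e := (hCmul _ h₁).add (hCmul _ h₂)
    have hT0 : ∀ z, z ≠ 0 → eval (fun i => eval (par c z) (Φ i)) (C b * H₁ + C (-a) * H₂) = 0 := by
      intro z _
      by_cases hz : Nz ω (fun i => eval (par c z) (Φ i))
      · have hz1n : Nz ω (fun i => eval (par c z1) (Φ i)) := by
          by_contra h
          exact hz1' (hnz h₂ _ h)
        have h5 := hsame (hcon z1 z hz1n hz)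
        simp only [map_add, map_mul, eval_C]
        linear_combination h5
      · exact hnz hT _ hz
    have e0 := hrel hT hT0 P0 hP0
    have e1 := hrel hT hT0 P1 hP1
    simp only [map_add, map_mul, eval_C] at e0 e1
    apply hne
    apply mul_left_cancel₀ hz1'
    linear_combination eval (fun i => eval P0 (Φ i)) H₂ * e1 -
      eval (fun i => eval P1 (Φ i)) H₂ * e0
  · intro z hz
    have h7 : DifferentiableAt ℂ (fun z : ℂ => Complex.exp z⁻¹) z :=
      (Complex.differentiable_exp _).comp z (differentiableAt_inv hz.1)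
    exact ((hEdiff (Complex.exp z⁻¹)).comp z h7).differentiableWithinAt
  · obtain ⟨z, hz, hz2, hz3⟩ := Pool.Agent.W235.GG.exists_small hz1 (ε := 1) one_pos
    refine ⟨z, ⟨hz, hz2⟩, ?_⟩
    by_contra h
    simp only [hz3] at h
    exact hz1' (hnz h₂ _ h)
  · obtain ⟨z, hz, hz2, hz3⟩ := Pool.Agent.W235.GG.exists_small hz1 (ε := 1) one_pos
    refine ⟨z, ⟨hz, hz2⟩, ?_⟩
    simp only [hz3]
    exact hz1'
  · have key : ∃ t, t ≠ 0 ∧
        eval (fun i => eval (par c t) (Φ i)) H₁ / eval (fun i => eval (par c t) (Φ i)) H₂ ≠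
          eval (fun i => eval (par c 1) (Φ i)) H₁ / eval (fun i => eval (par c 1) (Φ i)) H₂ := by
      by_contra hcon
      push Not at hcon
      set a := eval (fun i => eval (par c 1) (Φ i)) H₁ /
        eval (fun i => eval (par c 1) (Φ i)) H₂ with ha
      have hT : IsWeightedHomogeneous ω (H₂ * (H₁ + C (-a) * H₂)) (e + e) :=
        h₂.mul (h₁.add (hCmul _ h₂))
      have hT0 : ∀ z, z ≠ 0 → eval (fun i => eval (par c z) (Φ i))
          (H₂ * (H₁ + C (-a) * H₂)) = 0 := by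
        intro z hz
        have h3 := hcon z hz
        simp only [map_add, map_mul, eval_C]
        by_cases h5 : eval (fun i => eval (par c z) (Φ i)) H₂ = 0
        · rw [h5, zero_mul]
        · rw [div_eq_iff h5] at h3
          rw [h3]
          ring
      have e0 := hrel hT hT0 P0 hP0
      have e1 := hrel hT hT0 P1 hP1
      simp only [map_add, map_mul, eval_C] at e0 e1
      have e0' := (mul_eq_zero.1 e0).resolve_left h20
      have e1' := (mul_eq_zero.1 e1).resolve_left h21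
      apply hne
      linear_combination eval (fun i => eval P0 (Φ i)) H₂ * e1' -
        eval (fun i => eval P1 (Φ i)) H₂ * e0'
    obtain ⟨t, ht, ht1⟩ := key
    exact Pool.Agent.W235.GG.not_meromorphicAt
      (ψ := fun s => eval (fun i => eval (par c s) (Φ i)) H₁ /
        eval (fun i => eval (par c s) (Φ i)) H₂) (t := t) (fun z _ => rfl) ht ht1

end general

variable {n r : ℕ} {w : Fin n → ℕ} {G : Fin r → MvPolynomial (Fin n) ℂ} {d : Fin r → ℕ}
  {F : MvPolynomial (Fin n) ℂ} {k m : ℕ}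

theorem core (hG : ∀ j, IsWeightedHomogeneous w (G j) (d j))
    (hF : IsWeightedHomogeneous w F (k * m))
    {κ l k' u' : ℕ} (hκ : k = κ * k') (hml : m = l + u') {q : ℂ → ℂ → ℂ} (hpar : Par κ l q)
    (hqh : ∀ s t : ℂ, s ≠ 0 → q s t = s ^ (κ * l) * q 1 (t / s))
    (hqc : ∀ t : ℂ, Continuous fun s => q s t)
    {x : Fin n → ℂ} {y0 : ℂ} {i0 : Fin n} (hi0 : 1 ≤ w i0) (hx0 : x i0 ≠ 0)
    (hgcd : ∀ g : ℕ, (∀ i, x i ≠ 0 → g ∣ w i) → g = 1)
    {ξ : Fin n → Polynomial ℂ} (hdeg : ∀ i, (ξ i).natDegree ≤ w i) (hξ1 : (ξ i0).coeff 1 = 0)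
    (hcoeff : ∀ i, (ξ i).coeff 0 = x i) (hnc : ∃ i, 1 ≤ (ξ i).natDegree)
    (hGξ : ∀ j t, eval (fun i => (ξ i).eval t) (G j) = 0) {τ : Fin u' → ℂ}
    (hFξ : ∀ t, eval (fun i => (ξ i).eval t) F =
      y0 ^ k * ((q 1 t) ^ k' * (∏ v, (1 + τ v * t)) ^ k)) :
    ∃ (c : Kind) (Φ : Fin (n + 1) → MvPolynomial (Fin 3) ℂ) (M : ℕ),
      CurveMap (Fin.cons m w) (Cov G F k) c Φ ∧
      (∀ i, IsWeightedHomogeneous (wts c) (Φ i) (M * (Fin.cons m w : Fin (n + 1) → ℕ) i)) ∧
      (∃ P ∈ Pts c, (fun i => eval P (Φ i)) = (Fin.cons y0 x : Fin (n + 1) → ℂ)) ∧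
      EntireCurve (Fin.cons m w) (Cov G F k) (fun z i => eval (par c z) (Φ i)) ∧
      EssentialMap (Fin.cons m w) (Cov G F k)
        (fun z i => eval (par c (Complex.exp z⁻¹)) (Φ i)) := by
  obtain ⟨i1, hi1⟩ := nonconst_ratio hdeg hcoeff hi0 hx0 hξ1 hnc hgcd
  obtain ⟨c, hc, N, f, g, u, hN, hf, hg, hu, hcur, ⟨P0, hP0, hf0, hg0, hu0⟩, hsurj⟩ := hpar
  set Φ : Fin (n + 1) → MvPolynomial (Fin 3) ℂ :=
    Fin.cons (C y0 * (u * ∏ v, (f + C (τ v) * g))) (fun i => hmP (w i) (ξ i) f g) with hΦ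
  -- the coordinates
  have hptc : ∀ t, Continuous fun s => fun i => hm (w i) (ξ i) s t := fun t =>
    continuous_pi fun i => hm_cont _ _ _
  have hpts : ∀ s t : ℂ, s ≠ 0 → (fun i => hm (w i) (ξ i) s t) =
      fun i => s ^ w i * (ξ i).eval (t / s) := fun s t hs => funext fun i => hm_eq (hdeg i) hs t
  have hG' : ∀ j s t, eval (fun i => hm (w i) (ξ i) s t) (G j) = 0 := by
    intro j s t
    refine zero_of_ne (h := fun s => eval (fun i => hm (w i) (ξ i) s t) (G j))
      ((MvPolynomial.continuous_eval (G j)).comp (hptc t)) (fun s hs => ?_) s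
    rw [hpts s t hs, eval_act' (hG j) s (fun i => (ξ i).eval (t / s)), hGξ, mul_zero]
  have hF' : ∀ s t, eval (fun i => hm (w i) (ξ i) s t) F =
      y0 ^ k * (q s t ^ k' * (∏ v, (s + τ v * t)) ^ k) := by
    intro s t
    rw [← sub_eq_zero]
    refine zero_of_ne (h := fun s => eval (fun i => hm (w i) (ξ i) s t) F -
      y0 ^ k * (q s t ^ k' * (∏ v, (s + τ v * t)) ^ k)) ?_ (fun s hs => ?_) s
    · have h1 := (MvPolynomial.continuous_eval F).comp (hptc t)
      have h2 := hqc t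
      have h3 : Continuous fun s : ℂ => ∏ v, (s + τ v * t) := by fun_prop
      exact h1.sub (continuous_const.mul ((h2.pow k').mul (h3.pow k)))
    · rw [hpts s t hs, eval_act' hF s (fun i => (ξ i).eval (t / s)), hFξ, hqh s t hs]
      have h4 : ∏ v, (s + τ v * t) = s ^ u' * ∏ v, (1 + τ v * (t / s)) := by
        have h5 : ∀ v, s + τ v * t = s * (1 + τ v * (t / s)) := by
          intro v
          field_simp
        rw [Finset.prod_congr rfl fun v _ => h5 v, Finset.prod_mul_distrib, Finset.prod_const,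
          Finset.card_univ, Fintype.card_fin]
      rw [h4]
      have h6 : s ^ (k * m) = (s ^ (κ * l)) ^ k' * (s ^ u') ^ k := by
        rw [← pow_mul, ← pow_mul, ← pow_add, hml, hκ]
        congr 1
        ring
      rw [h6, mul_pow, mul_pow]
      ring
  have hΦ0 : ∀ P, eval P (Φ 0) = y0 * (eval P u * ∏ v, (eval P f + τ v * eval P g)) := by
    intro P
    rw [hΦ, Fin.cons_zero, map_mul, map_mul, eval_C, map_prod]
    congr 2
    refine Finset.prod_congr rfl fun v _ => ?_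
    rw [map_add, map_mul, eval_C]
  have hΦs : ∀ P i, eval P (Φ (Fin.succ i)) = hm (w i) (ξ i) (eval P f) (eval P g) := by
    intro P i
    rw [hΦ, Fin.cons_succ, eval_hmP]
  have hmem : ∀ P ∈ Pts c, (fun i => eval P (Φ i)) ∈ Cov G F k := by
    intro P hP
    obtain ⟨h1, h2⟩ := hcur P hP
    refine ⟨fun j => ?_, ?_⟩
    · simp only [hΦs]
      exact hG' j _ _
    · simp only [hΦs, hΦ0]
      rw [hF', ← h2, ← pow_mul, ← hκ, mul_pow, mul_pow]
  have hwh : ∀ i, IsWeightedHomogeneous (wts c) (Φ i) (N * (Fin.cons m w : Fin (n + 1) → ℕ) i) := by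
    intro i
    refine Fin.cases ?_ (fun i => ?_) i
    · rw [hΦ, Fin.cons_zero, Fin.cons_zero]
      have h1 : IsWeightedHomogeneous (wts c) (∏ v : Fin u', (f + C (τ v) * g)) (∑ _v : Fin u', N) :=
        IsWeightedHomogeneous.prod _ _ _ fun v _ => hf.add (wh_C_mul hg (τ v))
      have h2 := wh_C_mul (hu.mul h1) y0
      have e : l * N + ∑ _v : Fin u', N = N * m := by
        rw [Finset.sum_const, Finset.card_univ, Fintype.card_fin, smul_eq_mul, hml]
        ring
      rwa [e] at h2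
    · rw [hΦ, Fin.cons_succ, Fin.cons_succ]
      exact wh_hmP hf hg _ _
  -- a second point
  have hξ0 : ξ i0 ≠ 0 := by
    intro h
    apply hx0
    rw [← hcoeff, h, Polynomial.coeff_zero]
  obtain ⟨t1, ht1⟩ : ∃ t1 : ℂ, ((ξ i1 ^ w i0 * Polynomial.C (x i0 ^ w i1) -
      Polynomial.C (x i1 ^ w i0) * ξ i0 ^ w i1) * ξ i0).eval t1 ≠ 0 := by
    by_contra hcon
    push Not at hcon
    exact mul_ne_zero (sub_ne_zero.2 hi1) hξ0 (Polynomial.funext fun t => by
      rw [hcon t, Polynomial.eval_zero])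
  rw [Polynomial.eval_mul, Polynomial.eval_sub, Polynomial.eval_mul, Polynomial.eval_mul,
    Polynomial.eval_C, Polynomial.eval_C, Polynomial.eval_pow, Polynomial.eval_pow] at ht1
  obtain ⟨P1, hP1, hf1, hg1⟩ := hsurj 1 t1 (Or.inl one_ne_zero)
  have hv0 : ∀ i, eval P0 (Φ (Fin.succ i)) = x i := by
    intro i
    rw [hΦs, hf0, hg0, hm_one_zero, hcoeff]
  have hv1 : ∀ i, eval P1 (Φ (Fin.succ i)) = (ξ i).eval t1 := by
    intro i
    rw [hΦs, hf1, hg1, hm_eq (hdeg i) one_ne_zero, one_pow, one_mul, div_one]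
  have hwi1 : w i1 ≠ 0 := by
    intro h
    apply hi1
    have h1 := hdeg i1
    rw [h, Nat.le_zero] at h1
    rw [h, pow_zero, pow_zero, mul_one, Polynomial.eq_C_of_natDegree_eq_zero h1, hcoeff]
    simp
  have hX : ∀ (a : Fin n) (e : ℕ), IsWeightedHomogeneous (Fin.cons m w : Fin (n + 1) → ℕ)
      (X a.succ ^ e : MvPolynomial (Fin (n + 1)) ℂ) (e * w a) := by
    intro a e
    have := (isWeightedHomogeneous_X ℂ (Fin.cons m w : Fin (n + 1) → ℕ) a.succ).pow e
    rwa [smul_eq_mul, Fin.cons_succ] at this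
  have hX2 : IsWeightedHomogeneous (Fin.cons m w : Fin (n + 1) → ℕ)
      (X i0.succ ^ w i1 : MvPolynomial (Fin (n + 1)) ℂ) (w i0 * w i1) := by
    rw [mul_comm]
    exact hX i0 (w i1)
  obtain ⟨h1, h2, h3⟩ := three_maps (ω := (Fin.cons m w : Fin (n + 1) → ℕ)) (X := Cov G F k) hc hwh
    hmem (H₁ := X i1.succ ^ w i0) (H₂ := X i0.succ ^ w i1) (e := w i0 * w i1)
    (mul_ne_zero (by omega) hwi1) (hX i1 (w i0)) hX2 hP0 hP1 (by
      rw [map_pow, eval_X, hv0]
      exact pow_ne_zero _ hx0) (by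
      rw [map_pow, eval_X, hv1]
      exact pow_ne_zero _ (right_ne_zero_of_mul ht1)) (by
      rw [map_pow, map_pow, map_pow, map_pow, eval_X, eval_X, eval_X, eval_X, hv0, hv0, hv1, hv1]
      exact sub_ne_zero.1 (left_ne_zero_of_mul ht1))
  refine ⟨c, Φ, N, h1, hwh, ⟨P0, hP0, ?_⟩, h2, h3⟩
  funext i
  refine Fin.cases ?_ (fun i => ?_) i
  · rw [hΦ0, hu0, hf0, hg0, Fin.cons_zero]
    simp
  · rw [hv0, Fin.cons_succ]

end Pool.Agent.Helper568.GC
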