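import Pool.Agent.Helper568_GC.Param

/-!
Special sets of varieties in products of affine spaces and weighted projective spaces: definitions.

`ω` are the weights of the coordinates: the coordinates of weight zero are coordinates of an affine
space, the others are homogeneous coordinates of a weighted projective space. `X` is a closed cone,
that is, a set given by weighted homogeneous equations. The points of the variety are the points of
`X` at which some coordinate of positive weight is not zero, up to the equivalence relation `Same`.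
The variety is proper over the affine space. So holomorphic or rational maps from smooth curves to
the variety may be given by functions on the curve, with values in `X`, with common zeros of the
coordinates of positive weight: the maps extend uniquely to these zeros.
-/

set_option autoImplicit false

namespace Pool.Agent.Helper568.GC

open MvPolynomial

variable {N : ℕ} (ω : Fin N → ℕ) (X : Set (Fin N → ℂ))

/-- Some coordinate of positive weight is not zero. -/
def Nz (x : Fin N → ℂ) : Prop := ∃ i, ω i ≠ 0 ∧ x i ≠ 0

/-- The two vectors define the same point. -/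
def Same (x y : Fin N → ℂ) : Prop := ∃ c : ℂ, c ≠ 0 ∧ y = fun i => c ^ ω i * x i

/-- `f` defines a nonconstant entire curve in the variety. -/
def EntireCurve (f : ℂ → Fin N → ℂ) : Prop :=
  Differentiable ℂ f ∧ (∀ z, f z ∈ X) ∧ ∃ z z', Nz ω (f z) ∧ Nz ω (f z') ∧ ¬ Same ω (f z) (f z')

/-- The punctured unit disc. -/
def disc : Set ℂ := {z | z ≠ 0 ∧ ‖z‖ < 1}

/-- `f` defines a holomorphic map from the punctured disc to the variety with an essential
singularity at the origin: for some rational function `H₁ / H₂` on the variety, which is defined on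
the image, the function `H₁ / H₂ ∘ f` is not meromorphic at the origin. -/
def EssentialMap (f : ℂ → Fin N → ℂ) : Prop :=
  DifferentiableOn ℂ f disc ∧ (∀ z ∈ disc, f z ∈ X) ∧ (∃ z ∈ disc, Nz ω (f z)) ∧
    ∃ (H₁ H₂ : MvPolynomial (Fin N) ℂ) (e : ℕ), IsWeightedHomogeneous ω H₁ e ∧
      IsWeightedHomogeneous ω H₂ e ∧ (∃ z ∈ disc, eval (f z) H₂ ≠ 0) ∧
      ¬ MeromorphicAt (fun z => eval (f z) H₁ / eval (f z) H₂) 0

/-- The polynomials `Φ i` define a nonconstant morphism to the variety from the projective line (if
`c = none`) or from the elliptic curve `c² = b³ + α a⁴ b + β a⁶` in the weighted projective plane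
`P(1, 2, 3)` (if `c = some (α, β)`). -/
def CurveMap (c : Kind) (Φ : Fin N → MvPolynomial (Fin 3) ℂ) : Prop :=
  Valid c ∧ (∃ M : ℕ, ∀ i, IsWeightedHomogeneous (wts c) (Φ i) (M * ω i)) ∧
    (∀ P ∈ Pts c, (fun i => eval P (Φ i)) ∈ X) ∧
    ∃ P ∈ Pts c, ∃ P' ∈ Pts c, Nz ω (fun i => eval P (Φ i)) ∧ Nz ω (fun i => eval P' (Φ i)) ∧
      ¬ Same ω (fun i => eval P (Φ i)) (fun i => eval P' (Φ i))

/-- The (vectors of coordinates of) points of the variety. -/
def Var : Set (Fin N → ℂ) := {x | x ∈ X ∧ Nz ω x}

/-- The Zariski closure of the set of the points of `T` in the variety. -/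
def zclosure (T : Set (Fin N → ℂ)) : Set (Fin N → ℂ) :=
  {x | x ∈ Var ω X ∧ ∀ (H : MvPolynomial (Fin N) ℂ) (e : ℕ), IsWeightedHomogeneous ω H e →
    (∀ y ∈ T, Nz ω y → eval y H = 0) → eval x H = 0}

/-- The Zariski closure of the union of the images of the nonconstant morphisms from the projective
line and from elliptic curves. -/
def SpCurve : Set (Fin N → ℂ) :=
  zclosure ω X {y | ∃ c Φ, CurveMap ω X c Φ ∧ ∃ P ∈ Pts c, y = fun i => eval P (Φ i)}

/-- The Zariski closure of the union of the nonconstant entire curves. -/
def SpEntire : Set (Fin N → ℂ) :=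
  zclosure ω X {y | ∃ f, EntireCurve ω X f ∧ ∃ z, y = f z}

/-- The Zariski closure of the union of the images of the holomorphic maps from the punctured disc
with an essential singularity. -/
def SpDisc : Set (Fin N → ℂ) :=
  zclosure ω X {y | ∃ f, EssentialMap ω X f ∧ ∃ z ∈ disc, y = f z}

/-- The variety is irreducible. -/
def Irred : Prop :=
  (Var ω X).Nonempty ∧ ∀ (H H' : MvPolynomial (Fin N) ℂ) (e e' : ℕ), IsWeightedHomogeneous ω H e →
    IsWeightedHomogeneous ω H' e' → (∀ x ∈ Var ω X, eval x H * eval x H' = 0) →
    (∀ x ∈ Var ω X, eval x H = 0) ∨ ∀ x ∈ Var ω X, eval x H' = 0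

/-- The closed cone of the cyclic covering `y ^ k = F (x)` of the variety `G = 0`; the first
coordinate is `y`. -/
def Cov {n r : ℕ} (G : Fin r → MvPolynomial (Fin n) ℂ) (F : MvPolynomial (Fin n) ℂ) (k : ℕ) :
    Set (Fin (n + 1) → ℂ) :=
  {v | (∀ j, eval (fun i => v (Fin.succ i)) (G j) = 0) ∧
    v 0 ^ k = eval (fun i => v (Fin.succ i)) F}

end Pool.Agent.Helper568.GC
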