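import Pool.Agent.W599.CB.Rel

/-!
Entire functions `sA`, `sB`, `sC` (of weights one, two and three) that parametrise the curve
`c² = b³ + α a⁴ b + β a⁶`, without common zeros, and the density of the parametrised points.
-/

set_option autoImplicit false

namespace Pool.Agent.Helper568.GC

open Filter Topology Pool.Agent.W599.CB

variable (α β : ℂ)

/-- the function of weight one -/
noncomputable def sA (z : ℂ) : ℂ := z * wf α β (z ^ 2 / 4)
/-- the function of weight two -/
noncomputable def sB (z : ℂ) : ℂ := qf α β (z ^ 2)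
/-- the function of weight three -/
noncomputable def sC (z : ℂ) : ℂ := jj α β (pf α β (z ^ 2 / 4)) (qf α β (z ^ 2 / 4))

theorem four_quarter (z : ℂ) : z ^ 2 = 4 * (z ^ 2 / 4) := by ring

theorem sB_eq (z : ℂ) : sB α β z = g2 α β (pf α β (z ^ 2 / 4)) (qf α β (z ^ 2 / 4)) := by
  unfold sB
  conv_lhs => rw [four_quarter z]
  rw [qf_four]

theorem sA_sq (z : ℂ) : sA α β z ^ 2 = 4 * C4 α β (pf α β (z ^ 2 / 4)) (qf α β (z ^ 2 / 4)) := by
  rw [rel]
  unfold sA
  ring

theorem sA_sq' (z : ℂ) : sA α β z ^ 2 = pf α β (z ^ 2) := by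
  rw [sA_sq, ← pf_four, ← four_quarter]

theorem s_curve (z : ℂ) :
    sC α β z ^ 2 = sB α β z ^ 3 + α * sA α β z ^ 4 * sB α β z + β * sA α β z ^ 6 := by
  have h4 : sA α β z ^ 4 = (sA α β z ^ 2) ^ 2 := by ring
  have h6 : sA α β z ^ 6 = (sA α β z ^ 2) ^ 3 := by ring
  rw [h4, h6, sA_sq, sB_eq]
  unfold sC C4 g2 jj
  ring

theorem diff_pf : Differentiable ℂ (pf α β) :=
  differentiable_pf (a := fun _ => α) (b := fun _ => β) (U := fun z => z)
    (differentiable_const _) (differentiable_const _) differentiable_id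

theorem diff_qf : Differentiable ℂ (qf α β) :=
  differentiable_qf (a := fun _ => α) (b := fun _ => β) (U := fun z => z)
    (differentiable_const _) (differentiable_const _) differentiable_id

theorem diff_wf : Differentiable ℂ (wf α β) :=
  differentiable_wf (a := fun _ => α) (b := fun _ => β) (U := fun z => z)
    (differentiable_const _) (differentiable_const _) differentiable_id

theorem pf_zero : pf α β 0 = 0 := by
  obtain ⟨C, ε, hC, hε, h⟩ := small_est α β
  have h1 := (h 0 (by rw [norm_zero]; exact hε.le)).1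
  rw [sub_zero, norm_zero, zero_pow two_ne_zero, mul_zero] at h1
  exact norm_le_zero_iff.1 h1

theorem qf_zero : qf α β 0 = 1 := by
  obtain ⟨C, ε, hC, hε, h⟩ := small_est α β
  have h1 := (h 0 (by rw [norm_zero]; exact hε.le)).2.1
  rw [norm_zero, zero_pow two_ne_zero, mul_zero] at h1
  exact sub_eq_zero.1 (norm_le_zero_iff.1 h1)

theorem wf_zero : wf α β 0 = 1 := by
  obtain ⟨C, ε, hC, hε, h⟩ := small_est α β
  have h1 := (h 0 (by rw [norm_zero]; exact hε.le)).2.2
  rw [norm_zero, zero_pow two_ne_zero, mul_zero] at h1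
  exact sub_eq_zero.1 (norm_le_zero_iff.1 h1)

theorem diff_sA : Differentiable ℂ (sA α β) := by
  unfold sA
  exact differentiable_id.mul ((diff_wf α β).comp (by fun_prop : Differentiable ℂ fun z : ℂ => z ^ 2 / 4))

theorem diff_sB : Differentiable ℂ (sB α β) := by
  unfold sB
  exact (diff_qf α β).comp (by fun_prop : Differentiable ℂ fun z : ℂ => z ^ 2)

theorem diff_sC : Differentiable ℂ (sC α β) := by
  have h0 : Differentiable ℂ fun z : ℂ => z ^ 2 / 4 := by fun_prop
  have h1 : Differentiable ℂ fun z : ℂ => pf α β (z ^ 2 / 4) := (diff_pf α β).comp h0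
  have h2 : Differentiable ℂ fun z : ℂ => qf α β (z ^ 2 / 4) := (diff_qf α β).comp h0
  unfold sC jj
  fun_prop

theorem sA_zero : sA α β 0 = 0 := by unfold sA; ring
theorem sB_zero : sB α β 0 = 1 := by
  unfold sB
  rw [zero_pow two_ne_zero, qf_zero]
theorem sC_zero : sC α β 0 = 1 := by
  unfold sC jj
  rw [zero_pow two_ne_zero, zero_div, qf_zero, pf_zero]
  ring

theorem sA_neg (z : ℂ) : sA α β (-z) = -sA α β z := by
  unfold sA
  rw [neg_sq]
  ring
theorem sB_neg (z : ℂ) : sB α β (-z) = sB α β z := by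
  unfold sB
  rw [neg_sq]
theorem sC_neg (z : ℂ) : sC α β (-z) = sC α β z := by
  unfold sC
  rw [neg_sq]

theorem alg_step {a b p q : ℂ} (hd : 4 * a ^ 3 + 27 * b ^ 2 ≠ 0) (h1 : C4 a b p q = 0)
    (h2 : g2 a b p q = 0) : p = 0 ∧ q = 0 := by
  unfold C4 at h1
  unfold g2 at h2
  have hp : p = 0 := by
    by_contra hp
    have hR : q ^ 3 + a * p ^ 2 * q + b * p ^ 3 = 0 := by
      have : p * (q ^ 3 + a * p ^ 2 * q + b * p ^ 3) = 0 := by linear_combination h1
      exact (mul_eq_zero.1 this).resolve_left hp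
    have hS : 3 * q ^ 2 + a * p ^ 2 = 0 := by
      have : (3 * q ^ 2 + a * p ^ 2) ^ 2 = 0 := by linear_combination h2 + 8 * q * hR
      exact pow_eq_zero_iff two_ne_zero |>.1 this
    have hb : b * p ^ 3 = 2 * q ^ 3 := by linear_combination hR - q * hS
    have ha : a * p ^ 2 = -3 * q ^ 2 := by linear_combination hS
    have : (4 * a ^ 3 + 27 * b ^ 2) * p ^ 6 = 0 := by
      have e : (4 * a ^ 3 + 27 * b ^ 2) * p ^ 6 = 4 * (a * p ^ 2) ^ 3 + 27 * (b * p ^ 3) ^ 2 := by
        ring
      rw [e, ha, hb]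
      ring
    exact hd ((mul_eq_zero.1 this).resolve_right (pow_ne_zero _ hp))
  refine ⟨hp, ?_⟩
  rw [hp] at h2
  have : q ^ 4 = 0 := by linear_combination h2
  exact pow_eq_zero_iff (by norm_num) |>.1 this

theorem no_common {α β : ℂ} (hd : 4 * α ^ 3 + 27 * β ^ 2 ≠ 0) (U : ℂ) :
    ¬ (pf α β U = 0 ∧ qf α β U = 0) := by
  intro h
  have hn : ∀ n : ℕ, pf α β (U / 4 ^ n) = 0 ∧ qf α β (U / 4 ^ n) = 0 := by
    intro n
    induction n with
    | zero => simpa using h
    | succ n ih =>
      have e : U / 4 ^ n = 4 * (U / 4 ^ (n + 1)) := by rw [pow_succ]; field_simp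
      rw [e, pf_four, qf_four] at ih
      exact alg_step hd ((mul_eq_zero.1 ih.1).resolve_left (by norm_num)) ih.2
  have hlim : Tendsto (fun n : ℕ => U / 4 ^ n) atTop (𝓝 0) := by
    have h1 : Tendsto (fun n : ℕ => U * (1 / 4 : ℂ) ^ n) atTop (𝓝 (U * 0)) :=
      (tendsto_pow_atTop_nhds_zero_of_norm_lt_one (by
        rw [norm_div, norm_one, Complex.norm_ofNat]; norm_num)).const_mul U
    rw [mul_zero] at h1
    refine h1.congr fun n => ?_
    rw [one_div, inv_pow, div_eq_mul_inv]
  have h2 := ((diff_qf α β).continuous.tendsto 0).comp hlim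
  rw [qf_zero] at h2
  have h3 : Tendsto (fun _ : ℕ => (0 : ℂ)) atTop (𝓝 1) := by
    refine h2.congr fun n => ?_
    exact (hn n).2
  exact zero_ne_one (tendsto_nhds_unique tendsto_const_nhds h3)

theorem s_ne {α β : ℂ} (hd : 4 * α ^ 3 + 27 * β ^ 2 ≠ 0) (z : ℂ) :
    ¬ (sA α β z = 0 ∧ sB α β z = 0) := by
  rintro ⟨h1, h2⟩
  refine no_common hd (z ^ 2) ⟨?_, h2⟩
  rw [← sA_sq', h1, zero_pow two_ne_zero]

/-- the coordinates of the point with parameter `z` -/
noncomputable def ell (z : ℂ) : Fin 3 → ℂ := ![sA α β z, sB α β z, sC α β z]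

theorem near_zero : ∀ᶠ z in 𝓝[≠] (0 : ℂ), sA α β z ≠ 0 ∧ sC α β z ≠ 0 := by
  have h1 : ∀ᶠ z in 𝓝 (0 : ℂ), wf α β (z ^ 2 / 4) ≠ 0 := by
    have hc : Continuous fun z : ℂ => wf α β (z ^ 2 / 4) :=
      (diff_wf α β).continuous.comp (by fun_prop)
    refine hc.continuousAt.eventually_ne ?_
    rw [zero_pow two_ne_zero, zero_div, wf_zero]
    exact one_ne_zero
  have h2 : ∀ᶠ z in 𝓝 (0 : ℂ), sC α β z ≠ 0 :=
    (diff_sC α β).continuous.continuousAt.eventually_ne (by rw [sC_zero]; exact one_ne_zero)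
  filter_upwards [h1.filter_mono nhdsWithin_le_nhds, h2.filter_mono nhdsWithin_le_nhds,
    self_mem_nhdsWithin] with z h3 h4 h5
  exact ⟨mul_ne_zero h5 h3, h4⟩

/-- a polynomial in `b / a²` which vanishes along the parametrisation is zero -/
theorem poly_zero {R : Polynomial ℂ}
    (h : ∀ᶠ z in 𝓝[≠] (0 : ℂ), R.eval (sB α β z / sA α β z ^ 2) = 0) : R = 0 := by
  by_contra hR
  let H : ℂ → ℂ := fun z => ∑ i ∈ Finset.range (R.natDegree + 1),
    R.coeff i * sB α β z ^ i * (sA α β z ^ 2) ^ (R.natDegree - i)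
  have hH : ContinuousAt H 0 := by
    have h1 := (diff_sA α β).continuous
    have h2 := (diff_sB α β).continuous
    have : Continuous H := by
      simp only [H]
      fun_prop
    exact this.continuousAt
  have h1 : ∀ᶠ z in 𝓝[≠] (0 : ℂ), H z = 0 := by
    filter_upwards [h, near_zero α β] with z h2 h3
    have h4 : sA α β z ^ 2 ≠ 0 := pow_ne_zero _ h3.1
    have h5 : H z = (sA α β z ^ 2) ^ R.natDegree * R.eval (sB α β z / sA α β z ^ 2) := by
      rw [Polynomial.eval_eq_sum_range, Finset.mul_sum]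
      refine Finset.sum_congr rfl fun i hi => ?_
      have hi' : i ≤ R.natDegree := Nat.lt_succ_iff.1 (Finset.mem_range.1 hi)
      rw [div_pow]
      have h6 : (sA α β z ^ 2) ^ R.natDegree = (sA α β z ^ 2) ^ (R.natDegree - i) *
          (sA α β z ^ 2) ^ i := by rw [← pow_add, Nat.sub_add_cancel hi']
      rw [h6]
      field_simp
    rw [h5, h2, mul_zero]
  have h2 : H 0 = 0 := by
    have h3 : Tendsto H (𝓝[≠] 0) (𝓝 (H 0)) := hH.tendsto.mono_left nhdsWithin_le_nhds
    have h4 : Tendsto H (𝓝[≠] 0) (𝓝 0) := tendsto_const_nhds.congr' (by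
      filter_upwards [h1] with z hz using hz.symm)
    exact tendsto_nhds_unique h3 h4
  have h3 : H 0 = R.leadingCoeff := by
    simp only [H, sA_zero, sB_zero]
    rw [Finset.sum_eq_single R.natDegree]
    · rw [Nat.sub_self, pow_zero, mul_one, one_pow, mul_one]
      rfl
    · intro i hi hne
      have hi' : i ≤ R.natDegree := Nat.lt_succ_iff.1 (Finset.mem_range.1 hi)
      have : R.natDegree - i ≠ 0 := by omega
      rw [zero_pow two_ne_zero, zero_pow this, mul_zero]
    · intro hn
      exact absurd (Finset.mem_range.2 (Nat.lt_succ_self _)) hn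
  rw [h2] at h3
  exact hR (Polynomial.leadingCoeff_eq_zero.1 h3.symm)

open MvPolynomial in
theorem split_poly (T : MvPolynomial (Fin 3) ℂ) : ∃ R0 R1 : Polynomial ℂ, ∀ x y : ℂ,
    y ^ 2 = x ^ 3 + α * x + β → eval ![1, x, y] T = R0.eval x + y * R1.eval x := by
  induction T using MvPolynomial.induction_on with
  | C c => exact ⟨Polynomial.C c, 0, fun x y _ => by simp⟩
  | add p q hp hq =>
    obtain ⟨a0, a1, ha⟩ := hp
    obtain ⟨b0, b1, hb⟩ := hq
    refine ⟨a0 + b0, a1 + b1, fun x y h => ?_⟩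
    rw [map_add, ha x y h, hb x y h, Polynomial.eval_add, Polynomial.eval_add]
    ring
  | mul_X p i hp =>
    obtain ⟨a0, a1, ha⟩ := hp
    fin_cases i
    · refine ⟨a0, a1, fun x y h => ?_⟩
      rw [map_mul, ha x y h, eval_X]
      simp
    · refine ⟨a0 * Polynomial.X, a1 * Polynomial.X, fun x y h => ?_⟩
      rw [map_mul, ha x y h, eval_X]
      simp only [Polynomial.eval_mul, Polynomial.eval_X, Fin.mk_one, Matrix.cons_val_one,
        Matrix.cons_val_zero]
      ring
    · refine ⟨(Polynomial.X ^ 3 + Polynomial.C α * Polynomial.X + Polynomial.C β) * a1, a0,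
        fun x y h => ?_⟩
      rw [map_mul, ha x y h, eval_X]
      simp only [Polynomial.eval_mul, Polynomial.eval_X, Polynomial.eval_add, Polynomial.eval_pow,
        Polynomial.eval_C, Fin.reduceFinMk, Matrix.cons_val]
      linear_combination a1.eval x * h

open MvPolynomial in
/-- a polynomial with the scaling property which vanishes along the parametrisation vanishes on the
curve -/
theorem ell_dense {T : MvPolynomial (Fin 3) ℂ} {E : ℕ}
    (hT : ∀ (c : ℂ) (P : Fin 3 → ℂ), eval (fun i => c ^ (![1, 2, 3] i) * P i) T = c ^ E * eval P T)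
    (h : ∀ z, z ≠ 0 → eval (ell α β z) T = 0) (P : Fin 3 → ℂ)
    (hP : P 2 ^ 2 = P 1 ^ 3 + α * P 0 ^ 4 * P 1 + β * P 0 ^ 6) (hP0 : P 0 ≠ 0 ∨ P 1 ≠ 0) :
    eval P T = 0 := by
  obtain ⟨R0, R1, hR⟩ := split_poly α β T
  have hact : ∀ (c x y w : ℂ), eval ![c * x, c ^ 2 * y, c ^ 3 * w] T = c ^ E * eval ![x, y, w] T := by
    intro c x y w
    rw [← hT]
    congr 1
    congr 1
    funext i
    fin_cases i <;> simp
  -- value at the points with first coordinate nonzero
  have hnorm : ∀ x y w : ℂ, x ≠ 0 → w ^ 2 = y ^ 3 + α * x ^ 4 * y + β * x ^ 6 →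
      eval ![x, y, w] T = x ^ E * (R0.eval (y / x ^ 2) + w / x ^ 3 * R1.eval (y / x ^ 2)) := by
    intro x y w hx hw
    rw [← hR (y / x ^ 2) (w / x ^ 3), ← hact]
    · congr 1
      congr 1
      funext i
      fin_cases i
      · simp
      · simp
        field_simp
      · simp
        field_simp
    · field_simp
      linear_combination hw
  have h1 : ∀ᶠ z in 𝓝[≠] (0 : ℂ), R0.eval (sB α β z / sA α β z ^ 2) = 0 ∧
      R1.eval (sB α β z / sA α β z ^ 2) = 0 := by
    filter_upwards [near_zero α β, self_mem_nhdsWithin] with z hz hz0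
    have hz0 : z ≠ 0 := hz0
    have e1 := h z hz0
    have e2 := h (-z) (neg_ne_zero.2 hz0)
    unfold ell at e1 e2
    rw [sA_neg, sB_neg, sC_neg] at e2
    rw [hnorm _ _ _ hz.1 (s_curve α β z)] at e1
    rw [hnorm _ _ _ (neg_ne_zero.2 hz.1) (by rw [s_curve]; ring)] at e2
    have e1' := (mul_eq_zero.1 e1).resolve_left (pow_ne_zero _ hz.1)
    have e2' := (mul_eq_zero.1 e2).resolve_left (pow_ne_zero _ (neg_ne_zero.2 hz.1))
    rw [neg_sq, show (-sA α β z) ^ 3 = -(sA α β z ^ 3) by ring, div_neg] at e2'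
    have hq : sC α β z / sA α β z ^ 3 ≠ 0 := div_ne_zero hz.2 (pow_ne_zero _ hz.1)
    constructor
    · linear_combination (e1' + e2') / 2
    · have : sC α β z / sA α β z ^ 3 * R1.eval (sB α β z / sA α β z ^ 2) = 0 := by
        linear_combination (e1' - e2') / 2
      exact (mul_eq_zero.1 this).resolve_left hq
  have hR0 : R0 = 0 := poly_zero α β (h1.mono fun _ h => h.1)
  have hR1 : R1 = 0 := poly_zero α β (h1.mono fun _ h => h.2)
  have hPv : P = ![P 0, P 1, P 2] := by
    funext i
    fin_cases i <;> rfl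
  by_cases h0 : P 0 = 0
  · have hP1 : P 1 ≠ 0 := hP0.resolve_left (not_not.2 h0)
    have hT0 : eval ![0, 1, 1] T = 0 := by
      have hcont : Continuous fun z => eval (ell α β z) T := by
        have h2 : Continuous (ell α β) := by
          refine continuous_pi fun i => ?_
          fin_cases i
          · exact (diff_sA α β).continuous
          · exact (diff_sB α β).continuous
          · exact (diff_sC α β).continuous
        exact (MvPolynomial.continuous_eval T).comp h2
      have h3 : (fun z => eval (ell α β z) T) = fun _ => 0 :=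
        hcont.ext_on (dense_compl_singleton (0 : ℂ)) continuous_const fun z hz => h z hz
      have h4 := congrFun h3 0
      simp only [ell, sA_zero, sB_zero, sC_zero] at h4
      exact h4
    rw [h0] at hP
    have hc : P 2 ^ 2 = P 1 ^ 3 := by rw [hP]; ring
    have e := hact (P 2 / P 1) 0 1 1
    rw [hT0, mul_zero] at e
    rw [hPv, h0]
    have e1 : (P 2 / P 1) ^ 2 * 1 = P 1 := by
      rw [div_pow, hc]
      field_simp
    have e2 : (P 2 / P 1) ^ 3 * 1 = P 2 := by
      have : P 2 ^ 3 = P 2 * P 1 ^ 3 := by rw [← hc]; ring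
      rw [div_pow, this]
      field_simp
    rw [e1, e2, mul_zero] at e
    exact e
  · rw [hPv, hnorm _ _ _ h0 hP, hR0, hR1]
    simp

end Pool.Agent.Helper568.GC
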