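import Pool.Agent.Helper568_GC.Defs
import Pool.Agent.W235.GG.Base

/-!
Homogenisation of polynomial curves.
-/

set_option autoImplicit false

namespace Pool.Agent.Helper568.GC

open MvPolynomial

/-- homogenisation of degree `w` -/
def hm (w : ℕ) (p : Polynomial ℂ) (s t : ℂ) : ℂ :=
  ∑ l ∈ Finset.range (w + 1), p.coeff l * t ^ l * s ^ (w - l)

theorem hm_eq {w : ℕ} {p : Polynomial ℂ} (h : p.natDegree ≤ w) {s : ℂ} (hs : s ≠ 0) (t : ℂ) :
    hm w p s t = s ^ w * p.eval (t / s) := by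
  unfold hm
  rw [Polynomial.eval_eq_sum_range' (Nat.lt_succ_of_le h), Finset.mul_sum]
  refine Finset.sum_congr rfl fun l hl => ?_
  have hl' : l ≤ w := Nat.lt_succ_iff.1 (Finset.mem_range.1 hl)
  have h6 : s ^ w = s ^ (w - l) * s ^ l := by rw [← pow_add, Nat.sub_add_cancel hl']
  rw [h6, div_pow]
  field_simp

theorem hm_cont (w : ℕ) (p : Polynomial ℂ) (t : ℂ) : Continuous fun s => hm w p s t := by
  unfold hm
  fun_prop

theorem hm_one_zero (w : ℕ) (p : Polynomial ℂ) : hm w p 1 0 = p.coeff 0 := by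
  unfold hm
  rw [Finset.sum_eq_single 0]
  · simp
  · intro l _ hl
    rw [zero_pow hl, mul_zero, zero_mul]
  · intro h
    exact absurd (Finset.mem_range.2 (Nat.succ_pos w)) h

/-- weight one -/
theorem hm_one (p : Polynomial ℂ) (s t : ℂ) : hm 1 p s t = p.coeff 0 * s + p.coeff 1 * t := by
  unfold hm
  rw [Finset.sum_range_succ, Finset.sum_range_one]
  simp

/-- homogenisation by polynomials -/
noncomputable def hmP (w : ℕ) (p : Polynomial ℂ) (f g : MvPolynomial (Fin 3) ℂ) :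
    MvPolynomial (Fin 3) ℂ :=
  ∑ l ∈ Finset.range (w + 1), C (p.coeff l) * g ^ l * f ^ (w - l)

theorem eval_hmP (w : ℕ) (p : Polynomial ℂ) (f g : MvPolynomial (Fin 3) ℂ) (P : Fin 3 → ℂ) :
    eval P (hmP w p f g) = hm w p (eval P f) (eval P g) := by
  unfold hmP hm
  rw [map_sum]
  refine Finset.sum_congr rfl fun l _ => ?_
  rw [map_mul, map_mul, eval_C, map_pow, map_pow]

theorem wh_hmP {ν : Fin 3 → ℕ} {N : ℕ} {f g : MvPolynomial (Fin 3) ℂ}
    (hf : IsWeightedHomogeneous ν f N) (hg : IsWeightedHomogeneous ν g N) (w : ℕ)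
    (p : Polynomial ℂ) : IsWeightedHomogeneous ν (hmP w p f g) (N * w) := by
  unfold hmP
  refine IsWeightedHomogeneous.sum _ _ _ fun l hl => ?_
  have hl' : l ≤ w := Nat.lt_succ_iff.1 (Finset.mem_range.1 hl)
  have h1 := (wh_C_mul (hg.pow l) (p.coeff l)).mul (hf.pow (w - l))
  rw [smul_eq_mul, smul_eq_mul] at h1
  have e : l * N + (w - l) * N = N * w := by
    rw [← add_mul, Nat.add_sub_cancel' hl', mul_comm]
  rwa [e] at h1

/-- scaling -/
theorem eval_act' {n : ℕ} {w : Fin n → ℕ} {H : MvPolynomial (Fin n) ℂ} {e : ℕ}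
    (hH : IsWeightedHomogeneous w H e) : Sc w H e := fun c x =>
  Pool.Agent.W235.GG.eval_act hH c x

/-- a continuous function of `s` which vanishes for `s ≠ 0` -/
theorem zero_of_ne {h : ℂ → ℂ} (hc : Continuous h) (h0 : ∀ s, s ≠ 0 → h s = 0) (s : ℂ) :
    h s = 0 := by
  have h3 : h = fun _ => 0 :=
    hc.ext_on (dense_compl_singleton (0 : ℂ)) continuous_const fun z hz => h0 z hz
  exact congrFun h3 s

end Pool.Agent.Helper568.GC
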