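import Pool.Agent.Helper568_GC.Ell

/-!
Parametrisation of the cyclic coverings of the line of genus at most one by the projective line or
by an elliptic curve.
-/

set_option autoImplicit false

namespace Pool.Agent.Helper568.GC

open MvPolynomial

/-- The projective line (`none`) or the curve `c² = b³ + α a⁴ b + β a⁶` (`some (α, β)`). -/
abbrev Kind : Type := Option (ℂ × ℂ)

/-- The curve is nonsingular. -/
def Valid : Kind → Prop
  | none => True
  | some (α, β) => 4 * α ^ 3 + 27 * β ^ 2 ≠ 0

/-- The weights of the three coordinates. -/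
def wts : Kind → Fin 3 → ℕ
  | none => ![1, 1, 1]
  | some _ => ![1, 2, 3]

/-- The cone over the curve, without the origin. The projective line is the line `P 2 = 0`. -/
def Pts : Kind → Set (Fin 3 → ℂ)
  | none => {P | P ≠ 0 ∧ P 2 = 0}
  | some (α, β) => {P | P ≠ 0 ∧ P 2 ^ 2 = P 1 ^ 3 + α * P 0 ^ 4 * P 1 + β * P 0 ^ 6}

/-- An entire curve with Zariski dense image. -/
noncomputable def par : Kind → ℂ → Fin 3 → ℂ
  | none => fun z => ![1, z, 0]
  | some (α, β) => ell α β

theorem mem_some {α β : ℂ} {P : Fin 3 → ℂ} : P ∈ Pts (some (α, β)) ↔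
    (P ≠ 0 ∧ P 2 ^ 2 = P 1 ^ 3 + α * P 0 ^ 4 * P 1 + β * P 0 ^ 6) := Iff.rfl

theorem mem_none {P : Fin 3 → ℂ} : P ∈ Pts none ↔ (P ≠ 0 ∧ P 2 = 0) := Iff.rfl

theorem some_ne {α β : ℂ} {P : Fin 3 → ℂ} (hP : P ∈ Pts (some (α, β))) : P 0 ≠ 0 ∨ P 1 ≠ 0 := by
  by_contra h
  push Not at h
  obtain ⟨h0, h1⟩ := h
  obtain ⟨h2, h3⟩ := hP
  rw [h0, h1] at h3
  have h4 : P 2 = 0 := by
    have : P 2 ^ 2 = 0 := by rw [h3]; ring
    exact pow_eq_zero_iff two_ne_zero |>.1 this
  apply h2
  funext i
  fin_cases i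
  · exact h0
  · exact h1
  · exact h4

theorem none_ne {P : Fin 3 → ℂ} (hP : P ∈ Pts none) : P 0 ≠ 0 ∨ P 1 ≠ 0 := by
  by_contra h
  push Not at h
  obtain ⟨h0, h1⟩ := h
  obtain ⟨h2, h3⟩ := hP
  apply h2
  funext i
  fin_cases i
  · exact h0
  · exact h1
  · exact h3

theorem par_diff (c : Kind) : Differentiable ℂ (par c) := by
  rcases c with _ | ⟨α, β⟩
  · rw [differentiable_pi]
    intro i
    fin_cases i
    · exact differentiable_const _
    · exact differentiable_id
    · exact differentiable_const _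
  · rw [differentiable_pi]
    intro i
    fin_cases i
    · exact diff_sA α β
    · exact diff_sB α β
    · exact diff_sC α β

theorem par_mem {c : Kind} (hc : Valid c) (z : ℂ) : par c z ∈ Pts c := by
  rcases c with _ | ⟨α, β⟩
  · refine ⟨fun h => ?_, rfl⟩
    have := congrFun h 0
    exact one_ne_zero this
  · refine ⟨fun h => s_ne hc z ⟨congrFun h 0, congrFun h 1⟩, s_curve α β z⟩

/-- the scaling property of the weighted homogeneous polynomials -/
def Sc {σ : Type} (w : σ → ℕ) (T : MvPolynomial σ ℂ) (E : ℕ) : Prop :=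
  ∀ (c : ℂ) (P : σ → ℂ), eval (fun i => c ^ w i * P i) T = c ^ E * eval P T

/-- **Density.** -/
theorem par_dense {c : Kind} {T : MvPolynomial (Fin 3) ℂ} {E : ℕ} (hT : Sc (wts c) T E)
    (h : ∀ z, z ≠ 0 → eval (par c z) T = 0) {P : Fin 3 → ℂ} (hP : P ∈ Pts c) :
    eval P T = 0 := by
  rcases c with _ | ⟨α, β⟩
  · have hall : ∀ z, eval ![1, z, 0] T = 0 := by
      have hc : Continuous fun z : ℂ => eval ![1, z, 0] T := by
        have h2 : Continuous fun z : ℂ => (![1, z, 0] : Fin 3 → ℂ) := by
          refine continuous_pi fun i => ?_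
          fin_cases i
          · exact continuous_const
          · exact continuous_id
          · exact continuous_const
        exact (MvPolynomial.continuous_eval T).comp h2
      have h3 : (fun z : ℂ => eval ![1, z, 0] T) = fun _ => 0 :=
        hc.ext_on (dense_compl_singleton (0 : ℂ)) continuous_const fun z hz => h z hz
      exact fun z => congrFun h3 z
    have hs : ∀ s t : ℂ, s ≠ 0 → eval ![s, t, 0] T = 0 := by
      intro s t hs
      have h1 := hT s ![1, t / s, 0]
      rw [hall, mul_zero] at h1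
      have e : (fun i => s ^ wts none i * (![1, t / s, 0] : Fin 3 → ℂ) i) = ![s, t, 0] := by
        funext i
        fin_cases i
        · simp [wts]
        · simp [wts]
          field_simp
        · simp [wts]
      rw [e] at h1
      exact h1
    have hs' : ∀ s t : ℂ, eval ![s, t, 0] T = 0 := by
      intro s t
      have hc : Continuous fun s : ℂ => eval ![s, t, 0] T := by
        have h2 : Continuous fun s : ℂ => (![s, t, 0] : Fin 3 → ℂ) := by
          refine continuous_pi fun i => ?_
          fin_cases i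
          · exact continuous_id
          · exact continuous_const
          · exact continuous_const
        exact (MvPolynomial.continuous_eval T).comp h2
      have h3 : (fun s : ℂ => eval ![s, t, 0] T) = fun _ => 0 :=
        hc.ext_on (dense_compl_singleton (0 : ℂ)) continuous_const fun z hz => hs z t hz
      exact congrFun h3 s
    have hPv : P = ![P 0, P 1, 0] := by
      funext i
      fin_cases i
      · rfl
      · rfl
      · exact hP.2
    rw [hPv]
    exact hs' _ _
  · exact ell_dense α β hT h P hP.2 (some_ne hP)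

/-- The covering `u ^ κ = q (f, g)` of the line, where `u` has weight `l`, is parametrised by the
projective line or by an elliptic curve. -/
def Par (κ l : ℕ) (q : ℂ → ℂ → ℂ) : Prop :=
  ∃ c : Kind, Valid c ∧ ∃ (N : ℕ) (f g u : MvPolynomial (Fin 3) ℂ), 1 ≤ N ∧
    IsWeightedHomogeneous (wts c) f N ∧ IsWeightedHomogeneous (wts c) g N ∧
    IsWeightedHomogeneous (wts c) u (l * N) ∧
    (∀ P ∈ Pts c, (eval P f ≠ 0 ∨ eval P g ≠ 0) ∧ eval P u ^ κ = q (eval P f) (eval P g)) ∧
    (∃ P ∈ Pts c, eval P f = 1 ∧ eval P g = 0 ∧ eval P u = 1) ∧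
    (∀ f0 g0 : ℂ, (f0 ≠ 0 ∨ g0 ≠ 0) → ∃ P ∈ Pts c, eval P f = f0 ∧ eval P g = g0)

theorem wh_lin {w : Fin 3 → ℕ} {p q : MvPolynomial (Fin 3) ℂ} {N : ℕ}
    (hp : IsWeightedHomogeneous w p N) (hq : IsWeightedHomogeneous w q N) (a b : ℂ) :
    IsWeightedHomogeneous w (C a * p + C b * q) N := by
  have h1 : ∀ (x : ℂ) {s : MvPolynomial (Fin 3) ℂ}, IsWeightedHomogeneous w s N →
      IsWeightedHomogeneous w (C x * s) N := by
    intro x s hs
    have := (isWeightedHomogeneous_C w x).mul hs
    rwa [zero_add] at this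
  exact (h1 a hp).add (h1 b hq)

theorem wh_C_mul {w : Fin 3 → ℕ} {p : MvPolynomial (Fin 3) ℂ} {N : ℕ}
    (hp : IsWeightedHomogeneous w p N) (a : ℂ) : IsWeightedHomogeneous w (C a * p) N := by
  have := (isWeightedHomogeneous_C w a).mul hp
  rwa [zero_add] at this

theorem wh_pow {w : Fin 3 → ℕ} (i : Fin 3) (N : ℕ) :
    IsWeightedHomogeneous w (X i ^ N : MvPolynomial (Fin 3) ℂ) (N * w i) := by
  have := (isWeightedHomogeneous_X ℂ w i).pow N
  rwa [smul_eq_mul] at this

theorem wh_X {w : Fin 3 → ℕ} (i : Fin 3) :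
    IsWeightedHomogeneous w (X i : MvPolynomial (Fin 3) ℂ) (w i) := isWeightedHomogeneous_X ℂ w i

/-! ### rational curves -/

/-- all linear forms equal -/
theorem par_all (κ l : ℕ) (q : ℂ → ℂ → ℂ)
    (U : MvPolynomial (Fin 3) ℂ) (hU : IsWeightedHomogeneous ![1, 1, 1] U l)
    (hq : ∀ f g : ℂ, eval ![f, g, 0] U ^ κ = q f g) (h1 : eval ![1, 0, 0] U = 1) :
    Par κ l q := by
  refine ⟨none, trivial, 1, X 0, X 1, U, le_refl 1, wh_X 0, wh_X 1, by rwa [mul_one], ?_, ?_, ?_⟩
  · intro P hP
    rw [eval_X, eval_X]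
    refine ⟨none_ne hP, ?_⟩
    rw [← hq]
    congr 2
    congr 1
    funext i
    fin_cases i
    · rfl
    · rfl
    · exact hP.2
  · refine ⟨![1, 0, 0], ⟨fun h => one_ne_zero (congrFun h 0), rfl⟩, ?_, ?_, h1⟩
    · rw [eval_X]; rfl
    · rw [eval_X]; rfl
  · intro f0 g0 h0
    refine ⟨![f0, g0, 0], ⟨fun h => ?_, rfl⟩, ?_, ?_⟩
    · rcases h0 with h0 | h0
      · exact h0 (congrFun h 0)
      · exact h0 (congrFun h 1)
    · rw [eval_X]; rfl
    · rw [eval_X]; rfl

/-- two linear forms, which are `N`-th powers of the coordinates -/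
theorem par_pair (κ l N : ℕ) {a b : ℂ} (hab : a ≠ b) (q : ℂ → ℂ → ℂ) (hN : 1 ≤ N)
    (U : MvPolynomial (Fin 3) ℂ) (hU : IsWeightedHomogeneous ![1, 1, 1] U (l * N))
    (hq : ∀ f g s t : ℂ, f + a * g = s ^ N → f + b * g = t ^ N →
      eval ![s, t, 0] U ^ κ = q f g) (h1 : eval ![1, 1, 0] U = 1) :
    Par κ l q := by
  have hd : a - b ≠ 0 := sub_ne_zero.2 hab
  have hp : ∀ i : Fin 3, IsWeightedHomogeneous (wts none) (X i ^ N : MvPolynomial (Fin 3) ℂ) N := by
    intro i
    have := wh_pow (w := wts none) i N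
    have e : wts none i = 1 := by fin_cases i <;> rfl
    rwa [e, mul_one] at this
  refine ⟨none, trivial, N, C (-b / (a - b)) * X 0 ^ N + C (a / (a - b)) * X 1 ^ N,
    C (1 / (a - b)) * X 0 ^ N + C (-1 / (a - b)) * X 1 ^ N, U, hN,
    wh_lin (hp 0) (hp 1) _ _, wh_lin (hp 0) (hp 1) _ _, hU, ?_, ?_, ?_⟩
  · intro P hP
    simp only [map_add, map_mul, eval_C, map_pow, eval_X]
    have e1 : -b / (a - b) * P 0 ^ N + a / (a - b) * P 1 ^ N +
        a * (1 / (a - b) * P 0 ^ N + -1 / (a - b) * P 1 ^ N) = P 0 ^ N := by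
      field_simp
      ring
    have e2 : -b / (a - b) * P 0 ^ N + a / (a - b) * P 1 ^ N +
        b * (1 / (a - b) * P 0 ^ N + -1 / (a - b) * P 1 ^ N) = P 1 ^ N := by
      field_simp
      ring
    refine ⟨?_, ?_⟩
    · by_contra hcon
      push Not at hcon
      rw [hcon.1, hcon.2] at e1 e2
      have h3 : P 0 = 0 := by
        have : P 0 ^ N = 0 := by rw [← e1]; ring
        exact pow_eq_zero_iff (by omega) |>.1 this
      have h4 : P 1 = 0 := by
        have : P 1 ^ N = 0 := by rw [← e2]; ring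
        exact pow_eq_zero_iff (by omega) |>.1 this
      rcases none_ne hP with h | h
      · exact h h3
      · exact h h4
    · rw [← hq _ _ _ _ e1 e2]
      congr 2
      congr 1
      funext i
      fin_cases i
      · rfl
      · rfl
      · exact hP.2
  · refine ⟨![1, 1, 0], ⟨fun h => one_ne_zero (congrFun h 0), rfl⟩, ?_, ?_, h1⟩
    · simp only [map_add, map_mul, eval_C, map_pow, eval_X, Matrix.cons_val_zero,
        Matrix.cons_val_one, one_pow]
      field_simp
      ring
    · simp only [map_add, map_mul, eval_C, map_pow, eval_X, Matrix.cons_val_zero,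
        Matrix.cons_val_one, one_pow]
      field_simp
      ring
  · intro f0 g0 h0
    obtain ⟨s, hs⟩ := IsAlgClosed.exists_pow_nat_eq (f0 + a * g0) (show 0 < N by omega)
    obtain ⟨t, ht⟩ := IsAlgClosed.exists_pow_nat_eq (f0 + b * g0) (show 0 < N by omega)
    refine ⟨![s, t, 0], ⟨fun h => ?_, rfl⟩, ?_, ?_⟩
    · have hs0 : s = 0 := congrFun h 0
      have ht0 : t = 0 := congrFun h 1
      rw [hs0, zero_pow (by omega)] at hs
      rw [ht0, zero_pow (by omega)] at ht
      have hg : g0 = 0 := by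
        have : (a - b) * g0 = 0 := by linear_combination ht - hs
        exact (mul_eq_zero.1 this).resolve_left hd
      have hf : f0 = 0 := by
        rw [hg] at hs
        linear_combination -hs
      rcases h0 with h | h
      · exact h hf
      · exact h hg
    · simp only [map_add, map_mul, eval_C, map_pow, eval_X, Matrix.cons_val_zero,
        Matrix.cons_val_one]
      rw [hs, ht]
      field_simp
      ring
    · simp only [map_add, map_mul, eval_C, map_pow, eval_X, Matrix.cons_val_zero,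
        Matrix.cons_val_one]
      rw [hs, ht]
      field_simp
      ring

end Pool.Agent.Helper568.GC
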