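import Pool.Agent.Helper568_GC.Param

/-!
The double coverings with four branch points, the triple coverings with three branch points and the
coverings of degree four of type `(2, 4, 4)`.
-/

set_option autoImplicit false

namespace Pool.Agent.Helper568.GC

open MvPolynomial

theorem cons3 (x y z : ℂ) : (![x, y, z] : Fin 3 → ℂ) 0 = x ∧ (![x, y, z] : Fin 3 → ℂ) 1 = y ∧
    (![x, y, z] : Fin 3 → ℂ) 2 = z := ⟨rfl, rfl, rfl⟩

theorem par_two_distinct {a b c d : ℂ} (hab : a ≠ b) (hac : a ≠ c) (had : a ≠ d) (hbc : b ≠ c)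
    (hbd : b ≠ d) (hcd : c ≠ d) :
    Par 2 2 (fun f g => (f + a * g) * (f + b * g) * (f + c * g) * (f + d * g)) := by
  have h1 : a - d ≠ 0 := sub_ne_zero.2 had
  have h2 : b - d ≠ 0 := sub_ne_zero.2 hbd
  have h3 : c - d ≠ 0 := sub_ne_zero.2 hcd
  set e : ℂ := (1 / (a - d) + 1 / (b - d) + 1 / (c - d)) / 3 with he
  set e1 : ℂ := 1 / (a - d) - e with he1
  set e2 : ℂ := 1 / (b - d) - e with he2
  set e3 : ℂ := 1 / (c - d) - e with he3
  have k1 : (a - d) * (e1 + e) = 1 := by rw [he1]; field_simp; ring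
  have k2 : (b - d) * (e2 + e) = 1 := by rw [he2]; field_simp; ring
  have k3 : (c - d) * (e3 + e) = 1 := by rw [he3]; field_simp; ring
  have hs : e3 = -e1 - e2 := by rw [he1, he2, he3, he]; ring
  have n12 : e1 - e2 ≠ 0 := by
    intro h
    have h4 : e1 = e2 := sub_eq_zero.1 h
    rw [h4] at k1
    have h5 : (a - b) * (e2 + e) = 0 := by linear_combination k1 - k2
    rcases mul_eq_zero.1 h5 with h6 | h6
    · exact hab (sub_eq_zero.1 h6)
    · rw [h6, mul_zero] at k2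
      exact zero_ne_one k2
  have n13 : e1 - e3 ≠ 0 := by
    intro h
    have h4 : e1 = e3 := sub_eq_zero.1 h
    rw [h4] at k1
    have h5 : (a - c) * (e3 + e) = 0 := by linear_combination k1 - k3
    rcases mul_eq_zero.1 h5 with h6 | h6
    · exact hac (sub_eq_zero.1 h6)
    · rw [h6, mul_zero] at k3
      exact zero_ne_one k3
  have n23 : e2 - e3 ≠ 0 := by
    intro h
    have h4 : e2 = e3 := sub_eq_zero.1 h
    rw [h4] at k2
    have h5 : (b - c) * (e3 + e) = 0 := by linear_combination k2 - k3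
    rcases mul_eq_zero.1 h5 with h6 | h6
    · exact hbc (sub_eq_zero.1 h6)
    · rw [h6, mul_zero] at k3
      exact zero_ne_one k3
  obtain ⟨ρ, hρ⟩ := IsAlgClosed.exists_pow_nat_eq ((a - d) * (b - d) * (c - d)) (show 0 < 2 by norm_num)
  have hρ0 : ρ ≠ 0 := by
    intro h
    rw [h, zero_pow two_ne_zero] at hρ
    exact mul_ne_zero (mul_ne_zero h1 h2) h3 hρ.symm
  have key : ∀ p q : ℂ, (q + e1 * p ^ 2) * (q + e2 * p ^ 2) * (q + e3 * p ^ 2) =
      q ^ 3 + (e1 * e2 + e1 * e3 + e2 * e3) * p ^ 4 * q + e1 * e2 * e3 * p ^ 6 := by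
    intro p q
    rw [hs]
    ring
  refine ⟨some (e1 * e2 + e1 * e3 + e2 * e3, e1 * e2 * e3), ?_, 2,
    C (1 + d * e) * X 0 ^ 2 + C (-d) * X 1, C (-e) * X 0 ^ 2 + C 1 * X 1, C ρ * (X 0 * X 2),
    by norm_num, wh_lin (wh_pow 0 2) (wh_X 1) _ _, wh_lin (wh_pow 0 2) (wh_X 1) _ _,
    wh_C_mul ((wh_X 0).mul (wh_X 2)) ρ, ?_, ?_, ?_⟩
  · have : 4 * (e1 * e2 + e1 * e3 + e2 * e3) ^ 3 + 27 * (e1 * e2 * e3) ^ 2 =
        -((e1 - e2) ^ 2 * (e1 - e3) ^ 2 * (e2 - e3) ^ 2) := by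
      rw [hs]
      ring
    change 4 * (e1 * e2 + e1 * e3 + e2 * e3) ^ 3 + 27 * (e1 * e2 * e3) ^ 2 ≠ 0
    rw [this]
    exact neg_ne_zero.2 (mul_ne_zero (mul_ne_zero (pow_ne_zero _ n12) (pow_ne_zero _ n13))
      (pow_ne_zero _ n23))
  · intro P hP
    have hcur := hP.2
    simp only [map_add, map_mul, eval_C, map_pow, eval_X]
    constructor
    · by_contra hcon
      push Not at hcon
      obtain ⟨h4, h5⟩ := hcon
      have h6 : P 0 ^ 2 = 0 := by linear_combination h4 + d * h5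
      have h7 : P 0 = 0 := pow_eq_zero_iff two_ne_zero |>.1 h6
      have h8 : P 1 = 0 := by
        rw [h7] at h5
        linear_combination h5
      rcases some_ne hP with h | h
      · exact h h7
      · exact h h8
    · have m1 : (1 + d * e) * P 0 ^ 2 + -d * P 1 + a * (-e * P 0 ^ 2 + 1 * P 1) =
          (a - d) * (P 1 + e1 * P 0 ^ 2) := by linear_combination -P 0 ^ 2 * k1
      have m2 : (1 + d * e) * P 0 ^ 2 + -d * P 1 + b * (-e * P 0 ^ 2 + 1 * P 1) =
          (b - d) * (P 1 + e2 * P 0 ^ 2) := by linear_combination -P 0 ^ 2 * k2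
      have m3 : (1 + d * e) * P 0 ^ 2 + -d * P 1 + c * (-e * P 0 ^ 2 + 1 * P 1) =
          (c - d) * (P 1 + e3 * P 0 ^ 2) := by linear_combination -P 0 ^ 2 * k3
      have m4 : (1 + d * e) * P 0 ^ 2 + -d * P 1 + d * (-e * P 0 ^ 2 + 1 * P 1) = P 0 ^ 2 := by
        ring
      rw [m1, m2, m3, m4]
      have := key (P 0) (P 1)
      calc (ρ * (P 0 * P 2)) ^ 2 = ρ ^ 2 * P 0 ^ 2 * P 2 ^ 2 := by ring
        _ = (a - d) * (b - d) * (c - d) * P 0 ^ 2 *
            ((P 1 + e1 * P 0 ^ 2) * (P 1 + e2 * P 0 ^ 2) * (P 1 + e3 * P 0 ^ 2)) := by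
          rw [hρ, hcur, key]
        _ = _ := by ring
  · have hcur : (1 / ρ) ^ 2 = e ^ 3 + (e1 * e2 + e1 * e3 + e2 * e3) * 1 ^ 4 * e +
        e1 * e2 * e3 * 1 ^ 6 := by
      have h4 := key 1 e
      rw [← h4]
      have h5 : (e + e1 * 1 ^ 2) * (e + e2 * 1 ^ 2) * (e + e3 * 1 ^ 2) *
          ((a - d) * (b - d) * (c - d)) = 1 := by
        have : (e + e1 * 1 ^ 2) * (e + e2 * 1 ^ 2) * (e + e3 * 1 ^ 2) *
          ((a - d) * (b - d) * (c - d)) = ((a - d) * (e1 + e)) * ((b - d) * (e2 + e)) *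
            ((c - d) * (e3 + e)) := by ring
        rw [this, k1, k2, k3]
        ring
      rw [← hρ] at h5
      rw [div_pow, one_pow, eq_comm, eq_div_iff (pow_ne_zero 2 hρ0)]
      linear_combination h5
    refine ⟨![1, e, 1 / ρ], ⟨fun h => one_ne_zero (congrFun h 0), hcur⟩, ?_, ?_, ?_⟩
    · simp only [map_add, map_mul, eval_C, map_pow, eval_X, (cons3 _ _ _).1, (cons3 _ _ _).2.1]
      ring
    · simp only [map_add, map_mul, eval_C, map_pow, eval_X, (cons3 _ _ _).1, (cons3 _ _ _).2.1]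
      ring
    · simp only [map_mul, eval_C, eval_X, (cons3 _ _ _).1, (cons3 _ _ _).2.2]
      field_simp
  · intro f0 g0 h0
    obtain ⟨A, hA⟩ := IsAlgClosed.exists_pow_nat_eq (f0 + d * g0) (show 0 < 2 by norm_num)
    obtain ⟨W, hW⟩ := IsAlgClosed.exists_pow_nat_eq ((g0 + e * A ^ 2) ^ 3 +
      (e1 * e2 + e1 * e3 + e2 * e3) * A ^ 4 * (g0 + e * A ^ 2) + e1 * e2 * e3 * A ^ 6)
      (show 0 < 2 by norm_num)
    refine ⟨![A, g0 + e * A ^ 2, W], ⟨fun h => ?_, hW⟩, ?_, ?_⟩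
    · have hA0 : A = 0 := congrFun h 0
      have hB0 : g0 + e * A ^ 2 = 0 := congrFun h 1
      rw [hA0] at hA hB0
      have hg : g0 = 0 := by linear_combination hB0
      rw [hg] at hA
      have hf : f0 = 0 := by linear_combination -hA
      rcases h0 with h | h
      · exact h hf
      · exact h hg
    · simp only [map_add, map_mul, eval_C, map_pow, eval_X, (cons3 _ _ _).1, (cons3 _ _ _).2.1]
      linear_combination hA
    · simp only [map_add, map_mul, eval_C, map_pow, eval_X, (cons3 _ _ _).1, (cons3 _ _ _).2.1]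
      ring

theorem par_three_distinct {a b c : ℂ} (hab : a ≠ b) (hac : a ≠ c) (hbc : b ≠ c) :
    Par 3 1 (fun f g => (f + a * g) * (f + b * g) * (f + c * g)) := by
  have h1 : a - c ≠ 0 := sub_ne_zero.2 hac
  have h2 : b - c ≠ 0 := sub_ne_zero.2 hbc
  set μ : ℂ := (1 / (a - c) + 1 / (b - c)) / 2 with hμ
  set η : ℂ := (1 / (a - c) - 1 / (b - c)) / 2 with hη
  have k1 : (a - c) * (μ + η) = 1 := by rw [hμ, hη]; field_simp; ring
  have k2 : (b - c) * (μ - η) = 1 := by rw [hμ, hη]; field_simp; ring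
  have hη0 : η ≠ 0 := by
    intro h
    rw [h] at k1 k2
    have h5 : (a - b) * μ = 0 := by linear_combination k1 - k2
    rcases mul_eq_zero.1 h5 with h6 | h6
    · exact hab (sub_eq_zero.1 h6)
    · rw [h6] at k1
      norm_num at k1
  obtain ⟨ρ, hρ⟩ := IsAlgClosed.exists_pow_nat_eq ((a - c) * (b - c)) (show 0 < 3 by norm_num)
  have hρ0 : ρ ≠ 0 := by
    intro h
    rw [h, zero_pow three_ne_zero] at hρ
    exact mul_ne_zero h1 h2 hρ.symm
  refine ⟨some (0, η ^ 2), ?_, 3,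
    C (1 + c * μ) * X 0 ^ 3 + C (-c) * X 2, C (-μ) * X 0 ^ 3 + C 1 * X 2, C ρ * (X 0 * X 1),
    by norm_num, wh_lin (wh_pow 0 3) (wh_X 2) _ _, wh_lin (wh_pow 0 3) (wh_X 2) _ _,
    wh_C_mul ((wh_X 0).mul (wh_X 1)) ρ, ?_, ?_, ?_⟩
  · change 4 * (0 : ℂ) ^ 3 + 27 * (η ^ 2) ^ 2 ≠ 0
    have : 4 * (0 : ℂ) ^ 3 + 27 * (η ^ 2) ^ 2 = 27 * η ^ 4 := by ring
    rw [this]
    exact mul_ne_zero (by norm_num) (pow_ne_zero _ hη0)
  · intro P hP
    have hcur := hP.2
    simp only [map_add, map_mul, eval_C, map_pow, eval_X]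
    constructor
    · by_contra hcon
      push Not at hcon
      obtain ⟨h4, h5⟩ := hcon
      have h6 : P 0 ^ 3 = 0 := by linear_combination h4 + c * h5
      have h7 : P 0 = 0 := pow_eq_zero_iff three_ne_zero |>.1 h6
      have h8 : P 2 = 0 := by
        rw [h7] at h5
        linear_combination h5
      rw [h7, h8] at hcur
      have h9 : P 1 ^ 3 = 0 := by linear_combination -hcur
      rcases some_ne hP with h | h
      · exact h h7
      · exact h (pow_eq_zero_iff three_ne_zero |>.1 h9)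
    · have m1 : (1 + c * μ) * P 0 ^ 3 + -c * P 2 + a * (-μ * P 0 ^ 3 + 1 * P 2) =
          (a - c) * (P 2 + η * P 0 ^ 3) := by linear_combination -P 0 ^ 3 * k1
      have m2 : (1 + c * μ) * P 0 ^ 3 + -c * P 2 + b * (-μ * P 0 ^ 3 + 1 * P 2) =
          (b - c) * (P 2 - η * P 0 ^ 3) := by linear_combination -P 0 ^ 3 * k2
      have m3 : (1 + c * μ) * P 0 ^ 3 + -c * P 2 + c * (-μ * P 0 ^ 3 + 1 * P 2) = P 0 ^ 3 := by
        ring
      rw [m1, m2, m3]
      have h9 : P 1 ^ 3 = P 2 ^ 2 - η ^ 2 * P 0 ^ 6 := by linear_combination -hcur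
      calc (ρ * (P 0 * P 1)) ^ 3 = ρ ^ 3 * P 0 ^ 3 * P 1 ^ 3 := by ring
        _ = _ := by
          rw [hρ, h9]
          ring
  · have hcur : μ ^ 2 = (1 / ρ) ^ 3 + 0 * 1 ^ 4 * (1 / ρ) + η ^ 2 * 1 ^ 6 := by
      have h5 : (μ ^ 2 - η ^ 2) * ρ ^ 3 = 1 := by
        rw [hρ]
        linear_combination ((b - c) * (μ - η)) * k1 + k2
      have h6 : (1 / ρ) ^ 3 = μ ^ 2 - η ^ 2 := by
        rw [div_pow, one_pow, eq_comm, eq_div_iff (pow_ne_zero 3 hρ0)]
        exact h5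
      rw [h6]
      ring
    refine ⟨![1, 1 / ρ, μ], ⟨fun h => one_ne_zero (congrFun h 0), hcur⟩, ?_, ?_, ?_⟩
    · simp only [map_add, map_mul, eval_C, map_pow, eval_X, (cons3 _ _ _).1, (cons3 _ _ _).2.2]
      ring
    · simp only [map_add, map_mul, eval_C, map_pow, eval_X, (cons3 _ _ _).1, (cons3 _ _ _).2.2]
      ring
    · simp only [map_mul, eval_C, eval_X, (cons3 _ _ _).1, (cons3 _ _ _).2.1]
      field_simp
  · intro f0 g0 h0
    obtain ⟨A, hA⟩ := IsAlgClosed.exists_pow_nat_eq (f0 + c * g0) (show 0 < 3 by norm_num)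
    obtain ⟨W, hW⟩ := IsAlgClosed.exists_pow_nat_eq ((g0 + μ * A ^ 3) ^ 2 - η ^ 2 * A ^ 6)
      (show 0 < 3 by norm_num)
    refine ⟨![A, W, g0 + μ * A ^ 3], ⟨fun h => ?_, ?_⟩, ?_, ?_⟩
    · have hA0 : A = 0 := congrFun h 0
      have hB0 : g0 + μ * A ^ 3 = 0 := congrFun h 2
      rw [hA0] at hA hB0
      have hg : g0 = 0 := by linear_combination hB0
      rw [hg] at hA
      have hf : f0 = 0 := by linear_combination -hA
      rcases h0 with h | h
      · exact h hf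
      · exact h hg
    · change (g0 + μ * A ^ 3) ^ 2 = W ^ 3 + 0 * A ^ 4 * W + η ^ 2 * A ^ 6
      linear_combination -hW
    · simp only [map_add, map_mul, eval_C, map_pow, eval_X, (cons3 _ _ _).1, (cons3 _ _ _).2.2]
      linear_combination hA
    · simp only [map_add, map_mul, eval_C, map_pow, eval_X, (cons3 _ _ _).1, (cons3 _ _ _).2.2]
      ring

theorem par_four_distinct {a b c : ℂ} (hab : a ≠ b) (hac : a ≠ c) (hbc : b ≠ c) :
    Par 4 1 (fun f g => (f + a * g) ^ 2 * (f + b * g) * (f + c * g)) := by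
  have h1 : a - c ≠ 0 := sub_ne_zero.2 hac
  have h2 : b - c ≠ 0 := sub_ne_zero.2 hbc
  set δ : ℂ := 1 / (b - c) with hδ
  have hδ1 : (b - c) * δ = 1 := by rw [hδ]; field_simp
  set l : ℂ := (a - c) * δ with hl
  have hl0 : l ≠ 0 := mul_ne_zero h1 (by rw [hδ]; exact one_div_ne_zero h2)
  have hl1 : l ≠ 1 := by
    intro h
    have : (a - b) * δ = 0 := by linear_combination h - hδ1 + (hl ▸ rfl : (a - c) * δ = l)
    rcases mul_eq_zero.1 this with h3 | h3
    · exact hab (sub_eq_zero.1 h3)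
    · rw [h3, mul_zero] at hδ1
      exact zero_ne_one hδ1
  set α : ℂ := (1 - l) / l with hα
  have hα1 : l * α = 1 - l := by rw [hα]; field_simp
  obtain ⟨ρ, hρ⟩ := IsAlgClosed.exists_pow_nat_eq l (show 0 < 2 by norm_num)
  have hρ0 : ρ ≠ 0 := by
    intro h
    rw [h, zero_pow two_ne_zero] at hρ
    exact hl0 hρ.symm
  refine ⟨some (α, 0), ?_, 4,
    C (1 + c * δ) * X 0 ^ 4 + C (-(c * δ)) * X 1 ^ 2, C (-δ) * X 0 ^ 4 + C δ * X 1 ^ 2,
    C ρ * (X 0 * X 2), by norm_num, wh_lin (wh_pow 0 4) (wh_pow 1 2) _ _,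
    wh_lin (wh_pow 0 4) (wh_pow 1 2) _ _, wh_C_mul ((wh_X 0).mul (wh_X 2)) ρ, ?_, ?_, ?_⟩
  · change 4 * α ^ 3 + 27 * (0 : ℂ) ^ 2 ≠ 0
    have hα0 : α ≠ 0 := by
      intro h
      rw [h, mul_zero] at hα1
      exact hl1 (by linear_combination hα1)
    have : 4 * α ^ 3 + 27 * (0 : ℂ) ^ 2 = 4 * α ^ 3 := by ring
    rw [this]
    exact mul_ne_zero (by norm_num) (pow_ne_zero _ hα0)
  · intro P hP
    have hcur := hP.2
    simp only [map_add, map_mul, eval_C, map_pow, eval_X]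
    constructor
    · by_contra hcon
      push Not at hcon
      obtain ⟨h4, h5⟩ := hcon
      have h6 : P 0 ^ 4 = 0 := by linear_combination h4 + c * h5
      have h7 : P 0 = 0 := pow_eq_zero_iff (by norm_num) |>.1 h6
      rw [h7] at h5
      have h8 : P 1 ^ 2 = 0 := by
        linear_combination (b - c) * h5 - P 1 ^ 2 * hδ1
      rcases some_ne hP with h | h
      · exact h h7
      · exact h (pow_eq_zero_iff two_ne_zero |>.1 h8)
    · have m1 : (1 + c * δ) * P 0 ^ 4 + -(c * δ) * P 1 ^ 2 + a * (-δ * P 0 ^ 4 + δ * P 1 ^ 2) =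
          l * (P 1 ^ 2 + α * P 0 ^ 4) := by
        linear_combination -(P 0 ^ 4) * hα1 + (P 1 ^ 2 - P 0 ^ 4) * (hl ▸ rfl : (a - c) * δ = l)
      have m2 : (1 + c * δ) * P 0 ^ 4 + -(c * δ) * P 1 ^ 2 + b * (-δ * P 0 ^ 4 + δ * P 1 ^ 2) =
          P 1 ^ 2 := by linear_combination (P 1 ^ 2 - P 0 ^ 4) * hδ1
      have m3 : (1 + c * δ) * P 0 ^ 4 + -(c * δ) * P 1 ^ 2 + c * (-δ * P 0 ^ 4 + δ * P 1 ^ 2) =
          P 0 ^ 4 := by ring
      rw [m1, m2, m3]
      calc (ρ * (P 0 * P 2)) ^ 4 = (ρ ^ 2) ^ 2 * P 0 ^ 4 * (P 2 ^ 2) ^ 2 := by ring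
        _ = _ := by
          rw [hρ, hcur]
          ring
  · have hcur : (1 / ρ) ^ 2 = 1 ^ 3 + α * 1 ^ 4 * 1 + 0 * 1 ^ 6 := by
      rw [div_pow, one_pow, hρ, eq_comm, eq_div_iff hl0]
      linear_combination hα1
    refine ⟨![1, 1, 1 / ρ], ⟨fun h => one_ne_zero (congrFun h 0), hcur⟩, ?_, ?_, ?_⟩
    · simp only [map_add, map_mul, eval_C, map_pow, eval_X, (cons3 _ _ _).1, (cons3 _ _ _).2.1]
      ring
    · simp only [map_add, map_mul, eval_C, map_pow, eval_X, (cons3 _ _ _).1, (cons3 _ _ _).2.1]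
      ring
    · simp only [map_mul, eval_C, eval_X, (cons3 _ _ _).1, (cons3 _ _ _).2.2]
      field_simp
  · intro f0 g0 h0
    obtain ⟨A, hA⟩ := IsAlgClosed.exists_pow_nat_eq (f0 + c * g0) (show 0 < 4 by norm_num)
    obtain ⟨B, hB⟩ := IsAlgClosed.exists_pow_nat_eq (f0 + b * g0) (show 0 < 2 by norm_num)
    obtain ⟨W, hW⟩ := IsAlgClosed.exists_pow_nat_eq (B ^ 3 + α * A ^ 4 * B + 0 * A ^ 6)
      (show 0 < 2 by norm_num)
    refine ⟨![A, B, W], ⟨fun h => ?_, hW⟩, ?_, ?_⟩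
    · have hA0 : A = 0 := congrFun h 0
      have hB0 : B = 0 := congrFun h 1
      rw [hA0] at hA
      rw [hB0] at hB
      have hg : (b - c) * g0 = 0 := by linear_combination hA - hB
      have hg : g0 = 0 := (mul_eq_zero.1 hg).resolve_left h2
      rw [hg] at hA
      have hf : f0 = 0 := by linear_combination -hA
      rcases h0 with h | h
      · exact h hf
      · exact h hg
    · simp only [map_add, map_mul, eval_C, map_pow, eval_X, (cons3 _ _ _).1, (cons3 _ _ _).2.1]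
      rw [hA, hB]
      linear_combination (-c * g0) * hδ1
    · simp only [map_add, map_mul, eval_C, map_pow, eval_X, (cons3 _ _ _).1, (cons3 _ _ _).2.1]
      rw [hA, hB]
      linear_combination g0 * hδ1

end Pool.Agent.Helper568.GC
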